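import Pool.Agent.Q194.Cache.Lower

/-!
# The first adversary: all users request the same file
-/

namespace Q194.Cache

open Finset

variable {I J : Type} [Fintype I] [Fintype J] [DecidableEq J]

lemma sum_swap (nb : I → Finset J) (g : I → J → ℝ) :
    ∑ i, ∑ j ∈ nb i, g i j = ∑ j, ∑ i with j ∈ nb i, g i j := by
  refine sum_comm' ?_
  intro i j
  simp

lemma sum_reg {nb : I → Finset J} {d : ℕ} (h : RightRegular nb d) (g : J → ℝ) :
    ∑ i, ∑ j ∈ nb i, g j = ∑ j, d * g j := by
  rw [sum_swap]
  refine sum_congr rfl fun j _ => ?_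
  rw [sum_const, h j, nsmul_eq_mul]

lemma sum_card {nb : I → Finset J} {d : ℕ} (h : RightRegular nb d) :
    ∑ i, (#(nb i) : ℝ) = d * Fintype.card J := by
  have := sum_reg h (fun _ => 1)
  simp only [sum_const, nsmul_eq_mul, mul_one, card_univ] at this
  rw [this, mul_comm]

lemma sum_inj_le {N C : ℕ} {A : Type} [Fintype A] (ι : A → Fin N) (hι : Function.Injective ι)
    {y : J → Fin N → ℝ} (hy : y ∈ Config J N C) (j : J) : ∑ a, y j (ι a) ≤ C := by
  classical
  refine le_trans ?_ (hy j).2
  have : ∑ a, y j (ι a) = ∑ f ∈ univ.image ι, y j f := by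
    rw [sum_image (fun a _ b _ h => hι h)]
  rw [this]
  exact sum_le_sum_of_subset_of_nonneg (subset_univ _) fun f _ _ => ((hy j).1 f).1

theorem alpha [Nonempty J] {nb : I → Finset J} {d : ℕ} (hreg : RightRegular nb d)
    {N C T : ℕ} (hC : 1 ≤ C) (hN : 2 * C * Fintype.card J ≤ N)
    (hT : C * Fintype.card J ≤ T) :
    15 / 64 * (d * √(C * Fintype.card J * T)) ≤ minimaxRegret nb N C T := by
  classical
  obtain ⟨ι⟩ : Nonempty (J × Fin C × Bool ↪ Fin N) := by
    refine Function.Embedding.nonempty_of_card_le ?_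
    simp only [Fintype.card_prod, Fintype.card_fin, Fintype.card_bool]
    linarith [mul_comm (Fintype.card J) (C * 2), mul_comm C 2]
  have : Nonempty (Fin C) := ⟨⟨0, hC⟩⟩
  set n : ℝ := (Fintype.card J : ℝ) with hn
  have hn0 : 0 < n := by rw [hn]; exact_mod_cast Fintype.card_pos
  have hCr : (0 : ℝ) < C := by exact_mod_cast hC
  have hcard : (Fintype.card (J × Fin C × Bool) : ℝ) = n * (C * 2) := by
    simp only [Fintype.card_prod, Fintype.card_fin, Fintype.card_bool]
    push_cast; rfl
  have main := adversary nb (N := N) (C := C) (T := T) (Ω := J × Fin C × Bool)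
    (P := J × Fin C) (fun a _ => ι a) (d / 2) ?hV (fun _ => d / 2) ?hB
    (fun _ => d / 2) (fun _ => by positivity)
    (fun p a => if (a.1, a.2.1) = p then (if a.2.2 then 1 else -1) else 0) ?h1 ?h3
    (fun _ => (n * C)⁻¹) ?h2
    (fun σ j f => if ∃ c, f = ι (j, c, σ (j, c)) then 1 else 0) ?hy ?hg ?hT
  · refine le_trans (le_of_eq ?_) main
    rw [sum_const, card_univ, Fintype.card_prod, Fintype.card_fin, nsmul_eq_mul]
    push_cast
    have e1 : √(C * n * T) = (n * C) * √(T * (n * C)⁻¹) := by
      have h0 : (0 : ℝ) ≤ n * C := by positivity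
      rw [← Real.sqrt_sq h0, ← Real.sqrt_mul (by positivity), Real.sqrt_sq h0]
      congr 1
      field_simp
    rw [e1]
    ring
  case hV =>
    intro y hy
    have h1 : ∀ a : J × Fin C × Bool, reward nb (fun _ => ι a) y ≤
        ∑ i, ∑ j ∈ nb i, y j (ι a) := fun a => sum_le_sum fun i _ => min_le_right _ _
    calc ∑ a, reward nb (fun _ => ι a) y ≤ ∑ a, ∑ i, ∑ j ∈ nb i, y j (ι a) :=
          sum_le_sum fun a _ => h1 a
      _ = ∑ i, ∑ j ∈ nb i, ∑ a, y j (ι a) := by
          rw [sum_comm]
          refine sum_congr rfl fun i _ => sum_comm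
      _ ≤ ∑ i, ∑ _j ∈ nb i, (C : ℝ) :=
          sum_le_sum fun i _ => sum_le_sum fun j _ => sum_inj_le ι ι.injective hy j
      _ = _ := by
          rw [sum_reg hreg, sum_const, card_univ, nsmul_eq_mul, hcard]
          ring
  case hB =>
    rw [sum_const, card_univ, nsmul_eq_mul]
  case h1 =>
    rintro ⟨j, c⟩
    simp only [Fintype.sum_prod_type, Prod.mk.injEq]
    rw [Fintype.sum_eq_single j (fun x hx => by simp [hx]),
      Fintype.sum_eq_single c (fun x hx => by simp [hx])]
    simp
  case h3 =>
    intro p a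
    by_cases h : (a.1, a.2.1) = p <;> by_cases h' : a.2.2 = true <;> simp [h, h'] <;> norm_num
  case h2 =>
    rintro ⟨j, c⟩
    simp only [Fintype.sum_prod_type, Prod.mk.injEq]
    rw [Fintype.sum_eq_single j (fun x hx => by simp [hx]),
      Fintype.sum_eq_single c (fun x hx => by simp [hx])]
    have : ((n * (C * 2)) : ℝ) * (n * C)⁻¹ = 2 := by field_simp
    rw [← hcard] at this
    rw [this]
    simp
  case hy =>
    intro σ j
    refine ⟨fun f => ?_, ?_⟩
    · dsimp only
      split_ifs <;> norm_num
    · rw [sum_ite, sum_const_zero, add_zero, sum_const, nsmul_eq_mul, mul_one]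
      have : (univ.filter fun f => ∃ c, f = ι (j, c, σ (j, c))) ⊆
          univ.image (fun c : Fin C => ι (j, c, σ (j, c))) := by
        intro f hf
        rw [mem_filter] at hf
        obtain ⟨c, hc⟩ := hf.2
        exact mem_image.2 ⟨c, mem_univ _, hc.symm⟩
      have h2 := (card_le_card this).trans card_image_le
      rw [card_univ, Fintype.card_fin] at h2
      exact_mod_cast h2
  case hg =>
    rintro σ ⟨j, c, b⟩
    rw [Fintype.sum_eq_single (j, c) (fun x hx => by simp [hx.symm])]
    simp only [if_true]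
    have h1 : ∀ j' : J, (if ∃ c', ι (j, c, b) = ι (j', c', σ (j', c')) then (1 : ℝ) else 0) =
        if j' = j then (if b = σ (j, c) then 1 else 0) else 0 := by
      intro j'
      by_cases hj : j' = j
      · subst hj
        by_cases hb : b = σ (j', c)
        · rw [if_pos ⟨c, by rw [← hb]⟩]; simp [hb]
        · rw [if_neg]
          · simp [hb]
          rintro ⟨c', hc'⟩
          have := ι.injective hc'
          simp only [Prod.mk.injEq, true_and] at this
          apply hb
          rw [this.2, this.1]
      · rw [if_neg, if_neg hj]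
        rintro ⟨c', hc'⟩
        have := ι.injective hc'
        simp only [Prod.mk.injEq] at this
        exact hj this.1.symm
    have h2 : reward nb (fun _ => ι (j, c, b))
        (fun j f => if ∃ c, f = ι (j, c, σ (j, c)) then 1 else 0) =
        d * (if b = σ (j, c) then 1 else 0) := by
      unfold reward
      have h3 : ∀ i, min 1 (∑ j' ∈ nb i, (if ∃ c', ι (j, c, b) = ι (j', c', σ (j', c'))
          then (1 : ℝ) else 0)) = if j ∈ nb i then (if b = σ (j, c) then 1 else 0) else 0 := by
        intro i
        simp only [h1, sum_ite_eq']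
        split_ifs <;> norm_num
      rw [sum_congr rfl fun i _ => h3 i, sum_ite, sum_const_zero, add_zero, sum_const, hreg j,
        nsmul_eq_mul]
    rw [h2]
    cases b <;> cases hσ : σ (j, c) <;> simp
  case hT =>
    intro p
    have : (n * C : ℝ) ≤ T := by
      rw [hn]; rw [mul_comm]; exact_mod_cast hT
    rw [← div_eq_mul_inv, le_div_iff₀ (by positivity), one_mul]
    exact this

end Q194.Cache
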