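import Pool.Agent.Q194.Cache.Alpha

/-!
# The second adversary: active and neutral users
-/

namespace Q194.Cache

open Finset

variable {I J : Type} [Fintype I] [Fintype J] [DecidableEq I] [DecidableEq J]

/-- the marginals of the uniform distribution of a product -/
lemma sum_marginal {R : I → Type} [∀ i, Fintype (R i)] (i : I) (φ : R i → ℝ) :
    Fintype.card (R i) * ∑ a : (∀ i, R i), φ (a i) =
      Fintype.card (∀ i, R i) * ∑ r, φ r := by
  have hinv : Function.Involutive
      (fun p : (∀ i, R i) × R i => (Function.update p.1 i p.2, p.1 i)) := by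
    rintro ⟨ω, a⟩
    simp
  have h := Equiv.sum_comp hinv.toPerm (fun p : (∀ i, R i) × R i => φ (p.1 i))
  rw [Fintype.sum_prod_type, Fintype.sum_prod_type] at h
  simp only [Function.Involutive.coe_toPerm, Function.update_self, sum_const, card_univ,
    nsmul_eq_mul] at h
  rw [h, mul_sum]

/-- the data of an assignment of caches to active users -/
structure Assign (nb : I → Finset J) (A : Finset I) (asg : J → Option I) : Prop where
  none' : ∀ j, asg j = none → ∀ i ∈ A, j ∉ nb i
  some' : ∀ j i, asg j = some i → i ∈ A ∧ j ∈ nb i ∧ ∀ i' ∈ A, j ∈ nb i' → #(nb i) ≤ #(nb i')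

omit [Fintype I] [Fintype J] in
lemma exists_assign (nb : I → Finset J) (A : Finset I) : ∃ asg, Assign nb A asg := by
  have h : ∀ j, ∃ o : Option I, (o = none → ∀ i ∈ A, j ∉ nb i) ∧
      (∀ i, o = some i → i ∈ A ∧ j ∈ nb i ∧ ∀ i' ∈ A, j ∈ nb i' → #(nb i) ≤ #(nb i')) := by
    intro j
    by_cases hj : (A.filter fun i => j ∈ nb i).Nonempty
    · obtain ⟨i, hi, hmin⟩ := exists_min_image _ (fun i => #(nb i)) hj
      rw [mem_filter] at hi
      refine ⟨some i, by simp, ?_⟩
      rintro i' h'
      obtain rfl : i = i' := by simpa using h'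
      exact ⟨hi.1, hi.2, fun i' hi' hj' => hmin i' (mem_filter.2 ⟨hi', hj'⟩)⟩
    · rw [not_nonempty_iff_eq_empty, filter_eq_empty_iff] at hj
      exact ⟨none, fun _ i hi => hj hi, by simp⟩
  choose asg h1 h2 using h
  exact ⟨asg, h1, h2⟩

/-- number of the caches assigned to a user -/
def kk (asg : J → Option I) (i : I) : ℕ := #{j : J | asg j = some i}

omit [Fintype I] in
lemma sum_asg {nb : I → Finset J} {A : Finset I} {asg : J → Option I} (h : Assign nb A asg)
    (g : I → ℝ) : ∑ j, (asg j).elim 0 g = ∑ i ∈ A, kk asg i * g i := by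
  have h1 : ∀ j, (asg j).elim 0 g = ∑ i ∈ A, if asg j = some i then g i else 0 := by
    intro j
    cases hj : asg j with
    | none => simp
    | some i0 =>
      have := (h.some' j i0 hj).1
      simp [this]
  rw [sum_congr rfl fun j _ => h1 j, sum_comm]
  refine sum_congr rfl fun i _ => ?_
  rw [← sum_filter, sum_const, nsmul_eq_mul]
  rfl

omit [Fintype I] in
lemma kk_le {nb : I → Finset J} {A : Finset I} {asg : J → Option I} (h : Assign nb A asg)
    (i : I) : kk asg i ≤ #(nb i) := by
  refine card_le_card fun j hj => ?_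
  rw [mem_filter] at hj
  exact (h.some' j i hj.2).2.1

/-- the pool of the first coordinates of the requests of a user -/
def pool (nb : I → Finset J) (A : Finset I) (i : I) : Finset J := if i ∈ A then nb i else univ

/-- the request space of a user -/
abbrev Req (nb : I → Finset J) (A : Finset I) (C : ℕ) (i : I) : Type :=
  {j // j ∈ pool nb A i} × Fin C × Bool

/-- names of files -/
abbrev Name (I J : Type) (C : ℕ) : Type := (I × J × Fin C × Bool) ⊕ (J × Fin C)

/-- the name of the file requested -/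
def reqName (A : Finset I) {C : ℕ} (i : I) (j : J) (c : Fin C) (b : Bool) : Name I J C :=
  if i ∈ A then Sum.inl (i, j, c, b) else Sum.inr (j, c)

/-- the legal names -/
def legal (nb : I → Finset J) (A : Finset I) (C : ℕ) : Finset (Name I J C) :=
  (((A.sigma fun i => nb i ×ˢ (univ : Finset (Fin C × Bool))).image
      (fun p => (Sum.inl (p.1, p.2.1, p.2.2) : Name I J C)))) ∪
      (univ : Finset (J × Fin C)).image Sum.inr

lemma inl_mem_legal {nb : I → Finset J} {A : Finset I} {C : ℕ} {i : I} {j : J} {c : Fin C}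
    {b : Bool} : (Sum.inl (i, j, c, b) : Name I J C) ∈ legal nb A C ↔ i ∈ A ∧ j ∈ nb i := by
  simp [legal]

lemma inr_mem_legal {nb : I → Finset J} {A : Finset I} {C : ℕ} {j : J} {c : Fin C} :
    (Sum.inr (j, c) : Name I J C) ∈ legal nb A C := by
  simp [legal]

lemma card_legal (nb : I → Finset J) (A : Finset I) (C : ℕ) :
    #(legal nb A C) = 2 * C * (∑ i ∈ A, #(nb i)) + C * Fintype.card J := by
  rw [legal, card_union_of_disjoint, card_image_of_injOn, card_image_of_injective _
    Sum.inr_injective, card_sigma]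
  · simp only [card_product, card_univ, Fintype.card_prod, Fintype.card_fin, Fintype.card_bool]
    rw [← sum_mul]
    ring
  · rintro ⟨i, j, c⟩ _ ⟨i', j', c'⟩ _ h
    simp only [Sum.inl.injEq, Prod.mk.injEq] at h
    obtain ⟨rfl, rfl, rfl⟩ := h
    rfl
  · rw [disjoint_left]
    intro z hz hz'
    simp only [mem_image] at hz hz'
    obtain ⟨p, _, rfl⟩ := hz
    obtain ⟨q, _, hq⟩ := hz'
    cases hq

lemma exists_names {N C : ℕ} (nb : I → Finset J) (A : Finset I) (hN : 0 < N)
    (h : #(legal nb A C) ≤ N) : ∃ ι : Name I J C → Fin N, Set.InjOn ι (legal nb A C) := by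
  obtain ⟨e⟩ : Nonempty ({z // z ∈ legal nb A C} ↪ Fin N) := by
    refine Function.Embedding.nonempty_of_card_le ?_
    rw [Fintype.card_coe, Fintype.card_fin]
    exact h
  refine ⟨fun z => if hz : z ∈ legal nb A C then e ⟨z, hz⟩ else ⟨0, hN⟩, ?_⟩
  intro z hz z' hz' hzz
  simp only [Finset.mem_coe] at hz hz'
  simp only [hz, hz', dif_pos] at hzz
  simpa using e.injective hzz

lemma sum_legal (nb : I → Finset J) (A : Finset I) (C : ℕ) (g : Name I J C → ℝ) :
    ∑ z ∈ legal nb A C, g z = (∑ i ∈ A, ∑ j ∈ nb i, ∑ cb : Fin C × Bool, g (Sum.inl (i, j, cb))) +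
      ∑ jc : J × Fin C, g (Sum.inr jc) := by
  rw [legal, sum_union, sum_image, sum_image (fun a _ b _ h => Sum.inr_injective h), sum_sigma]
  · congr 1
    refine sum_congr rfl fun i _ => ?_
    rw [sum_product]
  · rintro ⟨i, j, c⟩ _ ⟨i', j', c'⟩ _ h
    simp only [Sum.inl.injEq, Prod.mk.injEq] at h
    obtain ⟨rfl, rfl, rfl⟩ := h
    rfl
  · rw [disjoint_left]
    intro z hz hz'
    simp only [mem_image] at hz hz'
    obtain ⟨p, _, rfl⟩ := hz
    obtain ⟨q, _, hq⟩ := hz'
    cases hq

lemma sum_legal_le {N C : ℕ} {nb : I → Finset J} {A : Finset I} {ι : Name I J C → Fin N}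
    (hι : Set.InjOn ι (legal nb A C)) {y : J → Fin N → ℝ} (hy : y ∈ Config J N C) (j : J) :
    ∑ z ∈ legal nb A C, y j (ι z) ≤ C := by
  refine le_trans ?_ (hy j).2
  have : ∑ z ∈ legal nb A C, y j (ι z) = ∑ f ∈ (legal nb A C).image ι, y j f := by
    rw [sum_image (fun a ha b hb h => hι ha hb h)]
  rw [this]
  exact sum_le_sum_of_subset_of_nonneg (subset_univ _) fun f _ _ => ((hy j).1 f).1

/-- name of the file requested by the user `i` with the random choice `r` -/
def nm (nb : I → Finset J) (A : Finset I) {C : ℕ} (i : I) (r : Req nb A C i) : Name I J C :=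
  reqName A i r.1.1 r.2.1 r.2.2

lemma card_req (nb : I → Finset J) (A : Finset I) (C : ℕ) (i : I) :
    (Fintype.card (Req nb A C i) : ℝ) = #(pool nb A i) * (2 * C) := by
  simp only [Req, Fintype.card_prod, Fintype.card_coe, Fintype.card_fin, Fintype.card_bool]
  push_cast
  ring

lemma sum_req (nb : I → Finset J) (A : Finset I) {C : ℕ} (i : I) (g : J → Fin C → Bool → ℝ) :
    ∑ r : Req nb A C i, g r.1.1 r.2.1 r.2.2 =
      ∑ j ∈ pool nb A i, ∑ cb : Fin C × Bool, g j cb.1 cb.2 := by
  rw [Fintype.sum_prod_type, sum_coe_sort (pool nb A i)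
    (fun j => ∑ cb : Fin C × Bool, g j cb.1 cb.2)]

lemma sum_req_active {nb : I → Finset J} {A : Finset I} {C : ℕ} {i : I} (hi : i ∈ A)
    (g : Name I J C → ℝ) : ∑ r : Req nb A C i, g (nm nb A i r) =
      ∑ j ∈ nb i, ∑ cb : Fin C × Bool, g (Sum.inl (i, j, cb)) := by
  have := sum_req nb A i (fun j c b => g (reqName A i j c b))
  simp only [nm]
  rw [this]
  simp only [pool, reqName, hi, if_true]

lemma sum_req_neutral {nb : I → Finset J} {A : Finset I} {C : ℕ} {i : I} (hi : i ∉ A)
    (g : Name I J C → ℝ) : ∑ r : Req nb A C i, g (nm nb A i r) =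
      2 * ∑ jc : J × Fin C, g (Sum.inr jc) := by
  have := sum_req nb A i (fun j c b => g (reqName A i j c b))
  simp only [nm]
  rw [this]
  simp only [pool, reqName, hi, if_false, Fintype.sum_prod_type, Fintype.sum_bool, mul_sum]
  refine sum_congr rfl fun j _ => sum_congr rfl fun c _ => by ring

lemma sum_req_single {nb : I → Finset J} {A : Finset I} {C : ℕ} {i : I} {j : J}
    (hj : j ∈ pool nb A i) (c : Fin C) (ψ : Bool → ℝ) :
    ∑ r : Req nb A C i, (if r.1.1 = j ∧ r.2.1 = c then ψ r.2.2 else 0) = ψ true + ψ false := by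
  have := sum_req nb A i (fun j' c' b => if j' = j ∧ c' = c then ψ b else 0)
  rw [this]
  rw [sum_eq_single_of_mem j hj (fun x _ hx => by simp [hx])]
  simp only [Fintype.sum_prod_type, true_and]
  rw [Fintype.sum_eq_single c (fun x hx => by simp [hx])]
  simp

/-- the index set of the fluctuations -/
abbrev Pairs (nb : I → Finset J) (A : Finset I) (C : ℕ) : Type :=
  Σ i : {i // i ∈ A}, ({j // j ∈ nb i.1} × Fin C)

/-- sign pattern extended -/
def tau {nb : I → Finset J} {A : Finset I} {C : ℕ} (σ : Pairs nb A C → Bool) (i : I) (j : J)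
    (c : Fin C) : Bool :=
  if h : i ∈ A ∧ j ∈ nb i then σ ⟨⟨i, h.1⟩, ⟨⟨j, h.2⟩, c⟩⟩ else true

/-- the configuration adapted to a sign pattern -/
noncomputable def star (nb : I → Finset J) (A : Finset I) {N C : ℕ} (asg : J → Option I)
    (ι : Name I J C → Fin N) (σ : Pairs nb A C → Bool) (j' : J) (f : Fin N) : ℝ :=
  (asg j').elim (if ∃ c, f = ι (Sum.inr (j', c)) then 1 else 0)
    (fun i => if ∃ j ∈ nb i, ∃ c, f = ι (Sum.inl (i, j, c, tau σ i j c)) then
      (#(nb i) : ℝ)⁻¹ else 0)

lemma star_mem {nb : I → Finset J} {A : Finset I} {N C : ℕ} {asg : J → Option I}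
    (h : Assign nb A asg) (ι : Name I J C → Fin N) (σ : Pairs nb A C → Bool) :
    star nb A asg ι σ ∈ Config J N C := by
  intro j'
  cases hj : asg j' with
  | none =>
    simp only [star, hj, Option.elim]
    refine ⟨fun f => by split_ifs <;> norm_num, ?_⟩
    rw [sum_ite, sum_const_zero, add_zero, sum_const, nsmul_eq_mul, mul_one]
    have : (univ.filter fun f => ∃ c, f = ι (Sum.inr (j', c))) ⊆
        univ.image (fun c : Fin C => ι (Sum.inr (j', c))) := by
      intro f hf
      rw [mem_filter] at hf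
      obtain ⟨c, hc⟩ := hf.2
      exact mem_image.2 ⟨c, mem_univ _, hc.symm⟩
    have h2 := (card_le_card this).trans card_image_le
    rw [card_univ, Fintype.card_fin] at h2
    exact_mod_cast h2
  | some i =>
    have hi := h.some' j' i hj
    have hpos : 0 < #(nb i) := card_pos.2 ⟨j', hi.2.1⟩
    have hr : (1 : ℝ) ≤ #(nb i) := by exact_mod_cast hpos
    simp only [star, hj, Option.elim]
    refine ⟨fun f => ?_, ?_⟩
    · split_ifs
      · exact ⟨by positivity, inv_le_one_of_one_le₀ hr⟩
      · norm_num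
    · rw [sum_ite, sum_const_zero, add_zero, sum_const, nsmul_eq_mul]
      have : (univ.filter fun f => ∃ j ∈ nb i, ∃ c, f = ι (Sum.inl (i, j, c, tau σ i j c))) ⊆
          (nb i ×ˢ (univ : Finset (Fin C))).image
            (fun p => ι (Sum.inl (i, p.1, p.2, tau σ i p.1 p.2))) := by
        intro f hf
        rw [mem_filter] at hf
        obtain ⟨j, hj, c, hc⟩ := hf.2
        exact mem_image.2 ⟨(j, c), mem_product.2 ⟨hj, mem_univ _⟩, hc.symm⟩
      have h2 := (card_le_card this).trans card_image_le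
      rw [card_product, card_univ, Fintype.card_fin] at h2
      have h3 : ((univ.filter fun f => ∃ j ∈ nb i, ∃ c,
          f = ι (Sum.inl (i, j, c, tau σ i j c))).card : ℝ) ≤ #(nb i) * C := by exact_mod_cast h2
      rw [← div_eq_mul_inv, div_le_iff₀ (by linarith)]
      linarith

end Q194.Cache
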