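import Pool.Agent.Q194.Cache.BetaMain

/-!
# The second adversary: conclusion
-/

namespace Q194.Cache

open Finset

variable {I J : Type} [Fintype I] [Fintype J] [DecidableEq I] [DecidableEq J]
  {nb : I → Finset J} {d : ℕ} {A : Finset I} {asg : J → Option I} {N C : ℕ}

/-- the fluctuation -/
noncomputable def xi (p : Pairs nb A C) (a : ∀ i, Req nb A C i) : ℝ :=
  if (a p.1.1).1.1 = p.2.1.1 ∧ (a p.1.1).2.1 = p.2.2 then (if (a p.1.1).2.2 then 1 else -1) else 0

lemma mem_of_active {i : I} (hi : i ∈ A) (r : Req nb A C i) : r.1.1 ∈ nb i := by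
  have := r.1.2
  simp only [pool, hi, if_true] at this
  exact this

lemma sum_xi (σ : Pairs nb A C → Bool) (a : ∀ i, Req nb A C i) (g : I → ℝ) :
    ∑ p : Pairs nb A C, (if σ p then g p.1.1 * xi p a else -(g p.1.1 * xi p a)) =
      ∑ i, if i ∈ A then g i * (if (a i).2.2 = tau σ i (a i).1.1 (a i).2.1 then 1 else -1)
        else 0 := by
  rw [Fintype.sum_sigma, ← sum_filter]
  have e1 : ∑ i with i ∈ A, g i * (if (a i).2.2 = tau σ i (a i).1.1 (a i).2.1 then (1 : ℝ)
      else -1) = ∑ i : {i // i ∈ A}, g i.1 *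
        (if (a i.1).2.2 = tau σ i.1 (a i.1).1.1 (a i.1).2.1 then (1 : ℝ) else -1) := by
    have : (univ.filter fun i => i ∈ A) = A := by ext; simp
    rw [this]
    exact (sum_coe_sort A (fun i => g i * (if (a i).2.2 = tau σ i (a i).1.1 (a i).2.1
      then (1 : ℝ) else -1))).symm
  rw [e1]
  refine sum_congr rfl fun i _ => ?_
  have hm := mem_of_active i.2 (a i.1)
  rw [Fintype.sum_eq_single ((⟨(a i.1).1.1, hm⟩, (a i.1).2.1) : {j // j ∈ nb i.1} × Fin C)]
  · have ht : tau σ i.1 (a i.1).1.1 (a i.1).2.1 =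
        σ ⟨i, (⟨(a i.1).1.1, hm⟩, (a i.1).2.1)⟩ := by
      unfold tau
      rw [dif_pos ⟨i.2, hm⟩]
    rw [ht]
    simp only [xi, and_self, if_true]
    cases (a i.1).2.2 <;> cases σ ⟨i, (⟨(a i.1).1.1, hm⟩, (a i.1).2.1)⟩ <;> simp
  · rintro ⟨j, c⟩ hne
    have : ¬ ((a i.1).1.1 = j.1 ∧ (a i.1).2.1 = c) := by
      rintro ⟨h1, h2⟩
      apply hne
      rw [h2]
      congr 1
      exact Subtype.ext h1.symm
    simp [xi, this]

lemma star_nonneg {ι : Name I J C → Fin N} (h : Assign nb A asg) (σ : Pairs nb A C → Bool)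
    (j : J) (f : Fin N) : 0 ≤ star nb A asg ι σ j f := ((star_mem h ι σ j).1 f).1

lemma gain (h : Assign nb A asg) (ι : Name I J C → Fin N) (σ : Pairs nb A C → Bool)
    (a : ∀ i, Req nb A C i) :
    BB nb A C asg a + ∑ p : Pairs nb A C,
      (if σ p then (kk asg p.1.1 : ℝ) / (2 * #(nb p.1.1)) * xi p a else
        -((kk asg p.1.1 : ℝ) / (2 * #(nb p.1.1)) * xi p a)) ≤
      reward nb (fun i => ι (nm nb A i (a i))) (star nb A asg ι σ) := by
  rw [sum_xi σ a (fun i => (kk asg i : ℝ) / (2 * #(nb i))), BB, ← sum_add_distrib]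
  unfold reward
  refine sum_le_sum fun i _ => ?_
  by_cases hi : i ∈ A
  · simp only [hi, if_true]
    have hm := mem_of_active hi (a i)
    have hpos : (0 : ℝ) < #(nb i) := by exact_mod_cast card_pos.2 ⟨_, hm⟩
    have hsum0 : 0 ≤ ∑ j ∈ nb i, star nb A asg ι σ j (ι (nm nb A i (a i))) :=
      sum_nonneg fun j _ => star_nonneg h σ j _
    by_cases hb : (a i).2.2 = tau σ i (a i).1.1 (a i).2.1
    · rw [if_pos hb]
      have e : (kk asg i : ℝ) / (2 * #(nb i)) + (kk asg i : ℝ) / (2 * #(nb i)) * 1 =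
          kk asg i * (#(nb i) : ℝ)⁻¹ := by field_simp; ring
      rw [e]
      have hk : (kk asg i : ℝ) ≤ #(nb i) := by exact_mod_cast kk_le h i
      refine le_min ?_ ?_
      · rw [← div_eq_mul_inv, div_le_one hpos]; exact hk
      · have hsub : (univ.filter fun j => asg j = some i) ⊆ nb i := by
          intro j hj
          rw [mem_filter] at hj
          exact (h.some' j i hj.2).2.1
        refine le_trans ?_ (sum_le_sum_of_subset_of_nonneg hsub
          (fun j _ _ => star_nonneg h σ j _))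
        have hval : ∀ j ∈ univ.filter (fun j => asg j = some i),
            star nb A asg ι σ j (ι (nm nb A i (a i))) = (#(nb i) : ℝ)⁻¹ := by
          intro j hj
          rw [mem_filter] at hj
          simp only [star, hj.2, Option.elim]
          rw [if_pos]
          refine ⟨(a i).1.1, hm, (a i).2.1, ?_⟩
          simp only [nm, reqName, hi, if_true]
          rw [← hb]
        rw [sum_congr rfl hval, sum_const, nsmul_eq_mul]
        rfl
    · rw [if_neg hb]
      have e : (kk asg i : ℝ) / (2 * #(nb i)) + (kk asg i : ℝ) / (2 * #(nb i)) * (-1) = 0 := by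
        ring
      rw [e]
      exact le_min zero_le_one hsum0
  · simp only [hi, if_false, add_zero]
    have hsum0 : 0 ≤ ∑ j ∈ nb i, star nb A asg ι σ j (ι (nm nb A i (a i))) :=
      sum_nonneg fun j _ => star_nonneg h σ j _
    split_ifs with hc
    · refine le_min le_rfl ?_
      have hval : star nb A asg ι σ (a i).1.1 (ι (nm nb A i (a i))) = 1 := by
        simp only [star, hc.2, Option.elim]
        rw [if_pos]
        refine ⟨(a i).2.1, ?_⟩
        simp only [nm, reqName, hi, if_false]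
      rw [← hval]
      exact single_le_sum (f := fun j => star nb A asg ι σ j (ι (nm nb A i (a i))))
        (fun j _ => star_nonneg h σ j _) hc.1
    · exact le_min zero_le_one hsum0

theorem beta [Nonempty J] (hreg : RightRegular nb d) {T : ℕ} (hC : 1 ≤ C)
    (hN : 2 * C * Fintype.card J ≤ N) (hT : C * Fintype.card J ≤ T)
    (hA1 : ∀ i ∈ A, (nb i).Nonempty) (hA2 : ∀ i ∈ A, 2 * d * #(nb i) ≤ Fintype.card J)
    (hA3 : 2 * ∑ i ∈ A, #(nb i) ≤ Fintype.card J) :
    15 / 64 * (√(C * T) * ∑ i ∈ A, √(#(nb i))) ≤ d * minimaxRegret nb N C T := by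
  classical
  obtain ⟨asg, h⟩ := exists_assign nb A
  have hJ : 0 < Fintype.card J := Fintype.card_pos
  have hCr : (0 : ℝ) < C := by exact_mod_cast hC
  have hJr : (0 : ℝ) < Fintype.card J := by exact_mod_cast hJ
  have hNpos : 0 < N := by
    have : 0 < 2 * C * Fintype.card J := by positivity
    omega
  have hlegal : #(legal nb A C) ≤ N := by
    rw [card_legal]
    refine le_trans ?_ hN
    have := Nat.mul_le_mul_left C hA3
    nlinarith
  obtain ⟨ι, hι⟩ := exists_names (N := N) (C := C) nb A hNpos hlegal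
  have hne : ∀ i, Nonempty (Req nb A C i) := by
    intro i
    rw [← Fintype.card_pos_iff]
    exact_mod_cast req_pos hA1 hC i
  have hne2 : Nonempty (∀ i, Req nb A C i) := ⟨fun i => (hne i).some⟩
  have hmpos : ∀ i ∈ A, (0 : ℝ) < #(nb i) := fun i hi => by
    exact_mod_cast card_pos.2 (hA1 i hi)
  have hmle : ∀ i, (#(nb i) : ℝ) ≤ Fintype.card J := fun i => by
    exact_mod_cast card_le_univ (nb i)
  have main := adversary nb (N := N) (C := C) (T := T) (Ω := ∀ i, Req nb A C i)
    (P := Pairs nb A C) (fun a i => ι (nm nb A i (a i))) (∑ j, C * lam nb d C asg j)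
    (fun y hy => hV_beta hreg h hC hA1 hA2 hι y hy) (BB nb A C asg)
    (hB_beta hreg h hC hA1).le
    (fun p => (kk asg p.1.1 : ℝ) / (2 * #(nb p.1.1))) (fun p => by positivity)
    xi ?h1 ?h3 (fun p => (C * #(nb p.1.1) : ℝ)⁻¹) ?h2 (fun σ => star nb A asg ι σ)
    (fun σ => star_mem h ι σ) (fun σ a => gain h ι σ a) ?hT
  · have e1 : ∑ p : Pairs nb A C, (kk asg p.1.1 : ℝ) / (2 * #(nb p.1.1)) *
        (15 / 32 * √(T * (C * #(nb p.1.1) : ℝ)⁻¹)) =
        15 / 64 * (√(C * T) * ∑ i ∈ A, kk asg i * (√(#(nb i)))⁻¹) := by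
      rw [Fintype.sum_sigma]
      simp only [sum_const, card_univ, Fintype.card_prod, Fintype.card_coe, Fintype.card_fin,
        nsmul_eq_mul]
      rw [mul_sum, mul_sum, ← sum_coe_sort A]
      refine sum_congr rfl fun i _ => ?_
      have hm := hmpos i.1 i.2
      have e2 : √(C * T) * (√(#(nb i.1)))⁻¹ = C * √(T * (C * #(nb i.1) : ℝ)⁻¹) := by
        rw [← Real.sqrt_inv, ← Real.sqrt_mul (by positivity)]
        have this : √((C : ℝ) ^ 2) = C := Real.sqrt_sq hCr.le
        calc √(C * T * (#(nb i.1) : ℝ)⁻¹) = √(C ^ 2 * (T * (C * #(nb i.1) : ℝ)⁻¹)) := by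
              congr 1
              field_simp
          _ = √((C : ℝ) ^ 2) * √(T * (C * #(nb i.1) : ℝ)⁻¹) := Real.sqrt_mul (by positivity) _
          _ = _ := by rw [this]
      have e3 : √(C * T) * (kk asg i.1 * (√(#(nb i.1)))⁻¹) =
          kk asg i.1 * (C * √(T * (C * #(nb i.1) : ℝ)⁻¹)) := by rw [← e2]; ring
      rw [e3]
      clear e2 e3
      push_cast
      generalize √(T * (C * #(nb i.1) : ℝ)⁻¹) = s
      generalize (#(nb i.1) : ℝ) = m at hm ⊢
      field_simp
      ring
    rw [e1] at main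
    have e4 : ∑ i ∈ A, √(#(nb i)) ≤ d * ∑ i ∈ A, kk asg i * (√(#(nb i)))⁻¹ := by
      rw [← sum_asg h]
      have e5 : ∑ i ∈ A, √(#(nb i)) = ∑ i, ∑ j ∈ nb i, if i ∈ A then (√(#(nb i)))⁻¹ else 0 := by
        have : ∀ i, ∑ j ∈ nb i, (if i ∈ A then (√(#(nb i)))⁻¹ else 0) =
            if i ∈ A then √(#(nb i)) else 0 := by
          intro i
          rw [sum_const, nsmul_eq_mul]
          split_ifs with hi
          · have := hmpos i hi
            have h2 : √(#(nb i)) * √(#(nb i)) = (#(nb i) : ℝ) :=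
              Real.mul_self_sqrt (Nat.cast_nonneg _)
            have h3 : (0 : ℝ) < √(#(nb i)) := Real.sqrt_pos.2 this
            nth_rewrite 1 [← h2]
            rw [mul_assoc, mul_inv_cancel₀ h3.ne', mul_one]
          · simp
        rw [sum_congr rfl fun i _ => this i]
        simp
      rw [e5, sum_swap, mul_sum]
      refine sum_le_sum fun j _ => ?_
      have hterm : ∀ i ∈ univ.filter (fun i => j ∈ nb i), (if i ∈ A then (√(#(nb i)))⁻¹ else 0) ≤
          (asg j).elim 0 (fun i => (√(#(nb i)))⁻¹) := by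
        intro i hi
        rw [mem_filter] at hi
        cases hs : asg j with
        | none =>
          have : i ∉ A := fun hiA => h.none' j hs i hiA hi.2
          simp [this]
        | some i0 =>
          simp only [Option.elim]
          obtain ⟨h1, h2, h3⟩ := h.some' j i0 hs
          split_ifs with hiA
          · have h4 := h3 i hiA hi.2
            have h5 : (#(nb i0) : ℝ) ≤ #(nb i) := by exact_mod_cast h4
            have h6 : (0 : ℝ) < √(#(nb i0)) := Real.sqrt_pos.2 (hmpos i0 h1)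
            exact inv_anti₀ h6 (Real.sqrt_le_sqrt h5)
          · positivity
      refine (sum_le_sum hterm).trans ?_
      rw [sum_const, hreg j, nsmul_eq_mul]
    calc 15 / 64 * (√(C * T) * ∑ i ∈ A, √(#(nb i)))
        ≤ 15 / 64 * (√(C * T) * (d * ∑ i ∈ A, kk asg i * (√(#(nb i)))⁻¹)) := by gcongr
      _ = d * (15 / 64 * (√(C * T) * ∑ i ∈ A, kk asg i * (√(#(nb i)))⁻¹)) := by ring
      _ ≤ d * minimaxRegret nb N C T := by gcongr
  case h1 =>
    intro p
    have hj : p.2.1.1 ∈ pool nb A p.1.1 := by simp [pool, p.1.2, p.2.1.2]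
    have := sum_marg p.1.1 (req_pos hA1 hC p.1.1) (fun r => if r.1.1 = p.2.1.1 ∧ r.2.1 = p.2.2
      then (if r.2.2 then (1 : ℝ) else -1) else 0)
    unfold xi
    rw [this, sum_req_single hj p.2.2 (fun b => if b then (1 : ℝ) else -1)]
    simp
  case h3 =>
    intro p a
    unfold xi
    split_ifs <;> norm_num
  case h2 =>
    intro p
    have hj : p.2.1.1 ∈ pool nb A p.1.1 := by simp [pool, p.1.2, p.2.1.2]
    have h5 := sum_marg p.1.1 (req_pos hA1 hC p.1.1) (fun r => if r.1.1 = p.2.1.1 ∧ r.2.1 = p.2.2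
      then (1 : ℝ) else 0)
    have e : ∀ a : (∀ i, Req nb A C i), xi p a ^ 2 =
        if (a p.1.1).1.1 = p.2.1.1 ∧ (a p.1.1).2.1 = p.2.2 then (1 : ℝ) else 0 := by
      intro a
      unfold xi
      split_ifs <;> norm_num
    rw [sum_congr rfl fun a _ => e a, h5, sum_req_single hj p.2.2 (fun _ => (1 : ℝ)), card_req]
    have hm := hmpos p.1.1 p.1.2
    simp only [pool, p.1.2, if_true]
    congr 1
    field_simp
    norm_num
  case hT =>
    intro p
    have hm := hmpos p.1.1 p.1.2
    rw [← div_eq_mul_inv, le_div_iff₀ (by positivity), one_mul]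
    calc (C * #(nb p.1.1) : ℝ) ≤ C * Fintype.card J :=
          mul_le_mul_of_nonneg_left (hmle _) hCr.le
      _ ≤ T := by exact_mod_cast hT

end Q194.Cache
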