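import Pool.Agent.Q194.Cache.Beta

/-!
# The second adversary: the bound
-/

namespace Q194.Cache

open Finset

variable {I J : Type} [Fintype I] [Fintype J] [DecidableEq I] [DecidableEq J]

lemma sum_marg {nb : I → Finset J} {A : Finset I} {C : ℕ} (i : I)
    (hc : (0 : ℝ) < Fintype.card (Req nb A C i)) (φ : Req nb A C i → ℝ) :
    ∑ a : (∀ i, Req nb A C i), φ (a i) =
      Fintype.card (∀ i, Req nb A C i) * ((Fintype.card (Req nb A C i) : ℝ)⁻¹ * ∑ r, φ r) := by
  have h := sum_marginal (R := Req nb A C) i φ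
  have : (Fintype.card (Req nb A C i) : ℝ) *
      (Fintype.card (∀ i, Req nb A C i) * ((Fintype.card (Req nb A C i) : ℝ)⁻¹ * ∑ r, φ r)) =
      Fintype.card (∀ i, Req nb A C i) * ∑ r, φ r := by
    field_simp
  rw [← this] at h
  exact mul_left_cancel₀ hc.ne' h

/-- the value of one unit of a cache -/
noncomputable def lam (nb : I → Finset J) (d C : ℕ) (asg : J → Option I) (j : J) : ℝ :=
  (asg j).elim (d / (C * Fintype.card J)) (fun i => (2 * C * #(nb i) : ℝ)⁻¹)

section

variable [Nonempty J] {nb : I → Finset J} {d : ℕ} {A : Finset I} {asg : J → Option I}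
  {N C : ℕ}

lemma lam_active (h : Assign nb A asg) (hC : 1 ≤ C) (j : J) (i : I) (hi : i ∈ A)
    (hj : j ∈ nb i) : (2 * C * #(nb i) : ℝ)⁻¹ ≤ lam nb d C asg j := by
  cases hs : asg j with
  | none => exact absurd hj (h.none' j hs i hi)
  | some i0 =>
    simp only [lam, hs, Option.elim]
    obtain ⟨_, h2, h3⟩ := h.some' j i0 hs
    have h4 := h3 i hi hj
    have hpos : 0 < #(nb i0) := card_pos.2 ⟨j, h2⟩
    have h5 : (0 : ℝ) < #(nb i0) := by exact_mod_cast hpos
    have h6 : (#(nb i0) : ℝ) ≤ #(nb i) := by exact_mod_cast h4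
    have h7 : (0 : ℝ) < C := by exact_mod_cast hC
    gcongr

lemma lam_neutral (h : Assign nb A asg) (hC : 1 ≤ C)
    (hA2 : ∀ i ∈ A, 2 * d * #(nb i) ≤ Fintype.card J) (j : J) :
    (d : ℝ) / (C * Fintype.card J) ≤ lam nb d C asg j := by
  cases hs : asg j with
  | none => simp only [lam, hs, Option.elim]; exact le_rfl
  | some i0 =>
    simp only [lam, hs, Option.elim]
    obtain ⟨h1, h2, _⟩ := h.some' j i0 hs
    have hpos : 0 < #(nb i0) := card_pos.2 ⟨j, h2⟩
    have h5 : (0 : ℝ) < #(nb i0) := by exact_mod_cast hpos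
    have h7 : (0 : ℝ) < C := by exact_mod_cast hC
    have h8 : (0 : ℝ) < Fintype.card J := by exact_mod_cast Fintype.card_pos
    have h9 : (2 * d * #(nb i0) : ℝ) ≤ Fintype.card J := by exact_mod_cast hA2 i0 h1
    rw [div_le_iff₀ (by positivity), inv_mul_eq_div, le_div_iff₀ (by positivity)]
    nlinarith

lemma lam_nonneg (j : J) : 0 ≤ lam nb d C asg j := by
  unfold lam
  cases asg j <;> simp <;> positivity

lemma pool_pos (hA1 : ∀ i ∈ A, (nb i).Nonempty) (i : I) : 0 < #(pool nb A i) := by
  unfold pool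
  split_ifs with h
  · exact card_pos.2 (hA1 i h)
  · exact card_pos.2 univ_nonempty

lemma req_pos (hA1 : ∀ i ∈ A, (nb i).Nonempty) (hC : 1 ≤ C) (i : I) :
    (0 : ℝ) < Fintype.card (Req nb A C i) := by
  rw [card_req]
  have h1 : (0 : ℝ) < #(pool nb A i) := by exact_mod_cast pool_pos hA1 i
  have h2 : (0 : ℝ) < C := by exact_mod_cast hC
  positivity

lemma hV_beta (hreg : RightRegular nb d) (h : Assign nb A asg) (hC : 1 ≤ C)
    (hA1 : ∀ i ∈ A, (nb i).Nonempty) (hA2 : ∀ i ∈ A, 2 * d * #(nb i) ≤ Fintype.card J)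
    {ι : Name I J C → Fin N} (hι : Set.InjOn ι (legal nb A C)) (y : J → Fin N → ℝ)
    (hy : y ∈ Config J N C) :
    ∑ a : (∀ i, Req nb A C i), reward nb (fun i => ι (nm nb A i (a i))) y ≤
      Fintype.card (∀ i, Req nb A C i) * ∑ j, C * lam nb d C asg j := by
  have h7 : (0 : ℝ) < C := by exact_mod_cast hC
  have h8 : (0 : ℝ) < Fintype.card J := by exact_mod_cast Fintype.card_pos
  have hpos : ∀ j f, 0 ≤ y j f := fun j f => ((hy j).1 f).1
  calc ∑ a : (∀ i, Req nb A C i), reward nb (fun i => ι (nm nb A i (a i))) y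
      ≤ ∑ a : (∀ i, Req nb A C i), ∑ i, ∑ j ∈ nb i, y j (ι (nm nb A i (a i))) :=
        sum_le_sum fun a _ => sum_le_sum fun i _ => min_le_right _ _
    _ = ∑ i, ∑ j ∈ nb i, ∑ a : (∀ i, Req nb A C i), y j (ι (nm nb A i (a i))) := by
        rw [sum_comm]
        refine sum_congr rfl fun i _ => sum_comm
    _ = ∑ i, ∑ j ∈ nb i, Fintype.card (∀ i, Req nb A C i) *
          ((Fintype.card (Req nb A C i) : ℝ)⁻¹ * ∑ r, y j (ι (nm nb A i r))) := by
        refine sum_congr rfl fun i _ => sum_congr rfl fun j _ => ?_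
        exact sum_marg i (req_pos hA1 hC i) (fun r => y j (ι (nm nb A i r)))
    _ = Fintype.card (∀ i, Req nb A C i) * ∑ j, ∑ i with j ∈ nb i,
          ((Fintype.card (Req nb A C i) : ℝ)⁻¹ * ∑ r, y j (ι (nm nb A i r))) := by
        rw [sum_swap, mul_sum]
        refine sum_congr rfl fun j _ => ?_
        rw [mul_sum]
    _ ≤ _ := by
        refine mul_le_mul_of_nonneg_left (sum_le_sum fun j _ => ?_) (by positivity)
        set YA : I → ℝ := fun i => ∑ j' ∈ nb i, ∑ cb : Fin C × Bool,
          y j (ι (Sum.inl (i, j', cb))) with hYA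
        set YH : ℝ := ∑ jc : J × Fin C, y j (ι (Sum.inr jc)) with hYH
        have hYA0 : ∀ i, 0 ≤ YA i := fun i => sum_nonneg fun _ _ => sum_nonneg fun _ _ => hpos _ _
        have hYH0 : 0 ≤ YH := sum_nonneg fun _ _ => hpos _ _
        have hl0 := lam_nonneg (nb := nb) (d := d) (C := C) (asg := asg) j
        have htot : ∑ i ∈ A, YA i + YH ≤ C := by
          have := sum_legal_le hι hy j
          rw [sum_legal nb A C (fun z => y j (ι z))] at this
          exact this
        have hterm : ∀ i ∈ univ.filter (fun i => j ∈ nb i),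
            ((Fintype.card (Req nb A C i) : ℝ)⁻¹ * ∑ r, y j (ι (nm nb A i r))) ≤
            (if i ∈ A then lam nb d C asg j * YA i else 0) +
              YH / (C * Fintype.card J) := by
          intro i hi
          rw [mem_filter] at hi
          have hq : 0 ≤ YH / (C * Fintype.card J) := by positivity
          by_cases hiA : i ∈ A
          · rw [if_pos hiA, card_req, sum_req_active hiA (fun z => y j (ι z))]
            have h1 := lam_active (d := d) h hC j i hiA hi.2
            have e : (#(pool nb A i) : ℝ) * (2 * C) = 2 * C * #(nb i) := by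
              simp only [pool, hiA, if_true]; ring
            rw [e]
            have h2 : (2 * C * #(nb i) : ℝ)⁻¹ * YA i ≤ lam nb d C asg j * YA i :=
              mul_le_mul_of_nonneg_right h1 (hYA0 i)
            linarith
          · rw [if_neg hiA, card_req, sum_req_neutral hiA (fun z => y j (ι z))]
            have e : (#(pool nb A i) : ℝ) = Fintype.card J := by
              simp only [pool, hiA, if_false, card_univ]
            rw [e, zero_add]
            refine le_of_eq ?_
            rw [← hYH]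
            field_simp
        refine (sum_le_sum hterm).trans ?_
        rw [sum_add_distrib, sum_const, hreg j, nsmul_eq_mul]
        have h1 : ∑ i with j ∈ nb i, (if i ∈ A then lam nb d C asg j * YA i else 0) ≤
            lam nb d C asg j * ∑ i ∈ A, YA i := by
          rw [mul_sum, ← sum_filter, filter_filter]
          refine sum_le_sum_of_subset_of_nonneg (fun i hi => (mem_filter.1 hi).2.2) ?_
          intro i _ _
          exact mul_nonneg hl0 (hYA0 i)
        have h2 : (d : ℝ) * (YH / (C * Fintype.card J)) ≤ lam nb d C asg j * YH := by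
          have := mul_le_mul_of_nonneg_right (lam_neutral h hC hA2 j) hYH0
          calc (d : ℝ) * (YH / (C * Fintype.card J)) = d / (C * Fintype.card J) * YH := by ring
            _ ≤ _ := this
        calc _ ≤ lam nb d C asg j * ∑ i ∈ A, YA i + lam nb d C asg j * YH := add_le_add h1 h2
          _ = lam nb d C asg j * (∑ i ∈ A, YA i + YH) := by ring
          _ ≤ lam nb d C asg j * C := mul_le_mul_of_nonneg_left htot hl0
          _ = _ := mul_comm _ _

/-- the deterministic part of the benchmark reward -/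
noncomputable def BB (nb : I → Finset J) (A : Finset I) (C : ℕ) (asg : J → Option I)
    (a : ∀ i, Req nb A C i) : ℝ :=
  ∑ i, if i ∈ A then (kk asg i : ℝ) / (2 * #(nb i)) else
    (if (a i).1.1 ∈ nb i ∧ asg (a i).1.1 = none then 1 else 0)

lemma hB_beta (hreg : RightRegular nb d) (h : Assign nb A asg) (hC : 1 ≤ C)
    (hA1 : ∀ i ∈ A, (nb i).Nonempty) :
    Fintype.card (∀ i, Req nb A C i) * ∑ j, C * lam nb d C asg j =
      ∑ a, BB nb A C asg a := by
  have h7 : (0 : ℝ) < C := by exact_mod_cast hC
  have h8 : (0 : ℝ) < Fintype.card J := by exact_mod_cast Fintype.card_pos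
  unfold BB
  rw [sum_comm]
  have e1 : ∀ i, ∑ a : (∀ i, Req nb A C i), (if i ∈ A then (kk asg i : ℝ) / (2 * #(nb i)) else
      (if (a i).1.1 ∈ nb i ∧ asg (a i).1.1 = none then 1 else 0)) =
      Fintype.card (∀ i, Req nb A C i) * (if i ∈ A then (kk asg i : ℝ) / (2 * #(nb i)) else
      ∑ j ∈ nb i, if asg j = none then (Fintype.card J : ℝ)⁻¹ else 0) := by
    intro i
    by_cases hi : i ∈ A
    · simp only [hi, if_true, sum_const, card_univ, nsmul_eq_mul]
    · simp only [hi, if_false]
      have := sum_marg i (req_pos hA1 hC i)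
        (fun r => if r.1.1 ∈ nb i ∧ asg r.1.1 = none then (1 : ℝ) else 0)
      rw [this]
      congr 1
      have e2 := sum_req nb A (C := C) i
        (fun j _ _ => if j ∈ nb i ∧ asg j = none then (1 : ℝ) else 0)
      rw [e2, card_req]
      simp only [pool, hi, if_false, card_univ, sum_const, Fintype.card_prod, Fintype.card_fin,
        Fintype.card_bool, nsmul_eq_mul]
      rw [← mul_sum]
      have e3 : ∑ j : J, (if j ∈ nb i ∧ asg j = none then (1 : ℝ) else 0) =
          ∑ j ∈ nb i, if asg j = none then 1 else 0 := by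
        rw [← sum_filter, ← sum_filter, ← filter_filter]
        simp
      rw [e3]
      have e4 : ∑ j ∈ nb i, (if asg j = none then (Fintype.card J : ℝ)⁻¹ else 0) =
          (Fintype.card J : ℝ)⁻¹ * ∑ j ∈ nb i, if asg j = none then 1 else 0 := by
        rw [mul_sum]
        refine sum_congr rfl fun j _ => ?_
        split_ifs <;> simp
      rw [e4]
      push_cast
      field_simp
  rw [sum_congr rfl fun i _ => e1 i]
  simp only [← mul_sum]
  congr 1
  rw [sum_ite]
  have e5 : ∑ i with i ∈ A, (kk asg i : ℝ) / (2 * #(nb i)) =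
      ∑ j, (asg j).elim 0 (fun i => (2 * #(nb i) : ℝ)⁻¹) := by
    rw [sum_asg h]
    refine sum_congr (by ext; simp) fun i _ => by rw [div_eq_mul_inv]
  have e6 : ∑ i with i ∉ A, ∑ j ∈ nb i, (if asg j = none then (Fintype.card J : ℝ)⁻¹ else 0) =
      ∑ j, (if asg j = none then d * (Fintype.card J : ℝ)⁻¹ else 0) := by
    have : ∑ i with i ∉ A, ∑ j ∈ nb i, (if asg j = none then (Fintype.card J : ℝ)⁻¹ else 0) =
        ∑ i, ∑ j ∈ nb i, (if asg j = none then (Fintype.card J : ℝ)⁻¹ else 0) := by
      rw [sum_filter]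
      refine sum_congr rfl fun i _ => ?_
      by_cases hi : i ∈ A
      · rw [if_neg (not_not.2 hi)]
        symm
        refine sum_eq_zero fun j hj => ?_
        rw [if_neg]
        intro hn
        exact h.none' j hn i hi hj
      · rw [if_pos hi]
    rw [this, sum_reg hreg]
    refine sum_congr rfl fun j _ => ?_
    split_ifs <;> simp
  rw [e5, e6, ← sum_add_distrib, mul_sum]
  refine sum_congr rfl fun j _ => ?_
  cases hs : asg j with
  | none => simp [lam, hs]; field_simp
  | some i0 =>
    obtain ⟨_, h2, _⟩ := h.some' j i0 hs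
    have h5 : (0 : ℝ) < #(nb i0) := by exact_mod_cast card_pos.2 ⟨j, h2⟩
    simp [lam, hs]; field_simp

end

end Q194.Cache
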