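import Pool.Agent.Q194.Cache.BetaFin

/-!
# The two adversaries together; the range of the functional
-/

namespace Q194.Cache

open Finset

variable {I J : Type} [Fintype I] [Fintype J] [DecidableEq J]

omit [Fintype I] in
lemma exists_chunk [DecidableEq I] (m : I → ℕ) (n : ℕ) (L : Finset I) :
    (∀ i ∈ L, 4 * m i ≤ n) → n ≤ 4 * ∑ i ∈ L, m i →
    ∃ B ⊆ L, n ≤ 4 * ∑ i ∈ B, m i ∧ 4 * ∑ i ∈ B, m i ≤ 2 * n := by
  induction L using Finset.induction_on with
  | empty =>
    intro _ h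
    refine ⟨∅, subset_refl _, h, by simp⟩
  | insert a L ha ih =>
    intro hL hs
    by_cases h : n ≤ 4 * ∑ i ∈ L, m i
    · obtain ⟨B, hB, h1, h2⟩ := ih (fun i hi => hL i (mem_insert_of_mem hi)) h
      exact ⟨B, hB.trans (subset_insert _ _), h1, h2⟩
    · refine ⟨insert a L, subset_refl _, hs, ?_⟩
      rw [sum_insert ha]
      have := hL a (mem_insert_self _ _)
      omega

omit [Fintype I] in
lemma exists_select [DecidableEq I] (m : I → ℕ) (w : I → ℝ) (hw : ∀ i, 0 ≤ w i) (n : ℕ) (k : ℕ) :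
    ∀ L : Finset I, (∀ i ∈ L, 4 * m i ≤ n) → 4 * ∑ i ∈ L, m i < k * n →
    ∃ A ⊆ L, 2 * ∑ i ∈ A, m i ≤ n ∧ ∑ i ∈ L, w i ≤ k * ∑ i ∈ A, w i := by
  induction k with
  | zero => intro L _ h; simp at h
  | succ k ih =>
    intro L hL hs
    by_cases h : 2 * ∑ i ∈ L, m i ≤ n
    · refine ⟨L, subset_refl _, h, ?_⟩
      have h0 : 0 ≤ ∑ i ∈ L, w i := sum_nonneg fun i _ => hw i
      push_cast
      nlinarith [(Nat.cast_nonneg k : (0 : ℝ) ≤ k)]
    · obtain ⟨B, hB, h1, h2⟩ := exists_chunk m n L hL (by omega)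
      have hsplit : ∑ i ∈ L \ B, m i + ∑ i ∈ B, m i = ∑ i ∈ L, m i := sum_sdiff hB
      have hsplitw : ∑ i ∈ L \ B, w i + ∑ i ∈ B, w i = ∑ i ∈ L, w i := sum_sdiff hB
      obtain ⟨A, hA, h3, h4⟩ := ih (L \ B) (fun i hi => hL i (mem_sdiff.1 hi).1) (by
        have : (k + 1) * n = k * n + n := by ring
        omega)
      have hk : (0 : ℝ) ≤ k := Nat.cast_nonneg k
      by_cases hc : ∑ i ∈ A, w i ≤ ∑ i ∈ B, w i
      · refine ⟨B, hB, by omega, ?_⟩
        rw [← hsplitw]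
        push_cast
        nlinarith [mul_le_mul_of_nonneg_left hc hk]
      · refine ⟨A, hA.trans sdiff_subset, h3, ?_⟩
        rw [← hsplitw]
        push_cast
        linarith [not_le.1 hc]

/-- **The lower bound.** -/
theorem lower [Nonempty J] {nb : I → Finset J} {d : ℕ} (hreg : RightRegular nb d) (hd : 1 ≤ d)
    {N C T : ℕ} (hC : 1 ≤ C) (hN : 2 * C * Fintype.card J ≤ N)
    (hT : C * Fintype.card J ≤ T) :
    1 / (40 * d ^ 2) * (√(C * T) * ∑ i, √(#(nb i))) ≤ minimaxRegret nb N C T := by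
  classical
  have hJ : 0 < Fintype.card J := Fintype.card_pos
  have hJr : (0 : ℝ) < Fintype.card J := by exact_mod_cast hJ
  have hCr : (0 : ℝ) < C := by exact_mod_cast hC
  have hdr : (1 : ℝ) ≤ d := by exact_mod_cast hd
  set R := minimaxRegret nb N C T with hR
  set n := Fintype.card J with hn
  have hα := alpha hreg hC hN hT
  rw [← hR] at hα
  set L : Finset I := univ.filter fun i => 4 * d * #(nb i) ≤ n ∧ (nb i).Nonempty with hL
  set H : Finset I := univ.filter fun i => n < 4 * d * #(nb i) with hH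
  have htotal : ∑ i, #(nb i) = d * n := by
    have := sum_card hreg
    exact_mod_cast this
  obtain ⟨A, hAL, hA3, hSA⟩ := exists_select (fun i => #(nb i)) (fun i => √(#(nb i) : ℝ))
    (fun i => Real.sqrt_nonneg _) n (4 * d + 1) L (by
      intro i hi
      rw [hL, mem_filter] at hi
      have : 4 * #(nb i) ≤ 4 * d * #(nb i) := by nlinarith [Nat.zero_le (#(nb i))]
      omega) (by
      have h1 : ∑ i ∈ L, #(nb i) ≤ ∑ i, #(nb i) :=
        sum_le_sum_of_subset_of_nonneg (subset_univ _) (fun _ _ _ => Nat.zero_le _)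
      rw [htotal] at h1
      have : (4 * d + 1) * n = 4 * (d * n) + n := by ring
      omega)
  have hβ := beta (A := A) hreg hC hN hT
    (fun i hi => ((mem_filter.1 (hAL hi)).2).2)
    (fun i hi => by
      have := ((mem_filter.1 (hAL hi)).2).1
      nlinarith [Nat.zero_le (d * #(nb i))]) hA3
  rw [← hR] at hβ
  -- the high part
  have hsn : (0 : ℝ) < √n := Real.sqrt_pos.2 hJr
  have hsn2 : √(n : ℝ) * √n = n := Real.mul_self_sqrt hJr.le
  have hHsum : ∑ i ∈ H, √(#(nb i)) ≤ 4 * d ^ 2 * √n := by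
    have h1 : ∀ i ∈ H, √(#(nb i)) ≤ 4 * d * #(nb i) / √n := by
      intro i hi
      rw [hH, mem_filter] at hi
      have h2 : (n : ℝ) ≤ 4 * d * #(nb i) := by exact_mod_cast hi.2.le
      have h3 : (#(nb i) : ℝ) ≤ n := by exact_mod_cast card_le_univ (nb i)
      rw [le_div_iff₀ hsn]
      calc √(#(nb i)) * √n ≤ √n * √n := by gcongr
        _ = n := hsn2
        _ ≤ _ := h2
    calc ∑ i ∈ H, √(#(nb i)) ≤ ∑ i ∈ H, 4 * d * #(nb i) / √n := sum_le_sum h1
      _ ≤ ∑ i, 4 * d * #(nb i) / √n :=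
          sum_le_sum_of_subset_of_nonneg (subset_univ _) (fun _ _ _ => by positivity)
      _ = 4 * d * (d * n) / √n := by
          rw [← sum_div, ← mul_sum]
          congr 2
          exact_mod_cast htotal
      _ = 4 * d ^ 2 * √n := by
          rw [div_eq_iff hsn.ne']
          calc (4 : ℝ) * d * (d * n) = 4 * d ^ 2 * n := by ring
            _ = 4 * d ^ 2 * (√n * √n) := by rw [hsn2]
            _ = _ := by ring
  have hsplit : ∑ i, √(#(nb i) : ℝ) = ∑ i ∈ L, √(#(nb i)) + ∑ i ∈ H, √(#(nb i)) := by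
    have hdis : Disjoint L H := by
      rw [disjoint_left]
      intro i hi hi'
      rw [hL, mem_filter] at hi
      rw [hH, mem_filter] at hi'
      omega
    rw [← sum_union hdis]
    symm
    refine sum_subset (subset_univ _) ?_
    intro i _ hi
    rw [mem_union, not_or, hL, hH, mem_filter, mem_filter] at hi
    have h1 : ¬ n < 4 * d * #(nb i) := fun h => hi.2 ⟨mem_univ _, h⟩
    have h2 : ¬ (nb i).Nonempty := fun h => hi.1 ⟨mem_univ _, not_lt.1 h1, h⟩
    rw [not_nonempty_iff_eq_empty] at h2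
    simp [h2]
  have hCT : (0 : ℝ) ≤ √(C * T) := Real.sqrt_nonneg _
  have hR0 : 0 ≤ R := by
    refine le_trans ?_ hα
    positivity
  have e1 : √((C : ℝ) * n * T) = √(C * T) * √n := by
    rw [← Real.sqrt_mul (by positivity)]
    congr 1
    ring
  have hhigh : 15 / 64 * (√(C * T) * ∑ i ∈ H, √(#(nb i))) ≤ 4 * d ^ 2 * R := by
    calc 15 / 64 * (√(C * T) * ∑ i ∈ H, √(#(nb i)))
        ≤ 15 / 64 * (√(C * T) * (4 * d ^ 2 * √n)) := by gcongr
      _ = 4 * d * (15 / 64 * (d * √(C * n * T))) := by rw [e1]; ring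
      _ ≤ 4 * d * R := by gcongr
      _ ≤ 4 * d ^ 2 * R := by
          have : (d : ℝ) ≤ d ^ 2 := by nlinarith
          gcongr
  have hlow : 15 / 64 * (√(C * T) * ∑ i ∈ L, √(#(nb i))) ≤ 5 * d ^ 2 * R := by
    calc 15 / 64 * (√(C * T) * ∑ i ∈ L, √(#(nb i)))
        ≤ 15 / 64 * (√(C * T) * ((4 * d + 1 : ℕ) * ∑ i ∈ A, √(#(nb i)))) := by gcongr
      _ = (4 * d + 1) * (15 / 64 * (√(C * T) * ∑ i ∈ A, √(#(nb i)))) := by push_cast; ring
      _ ≤ (4 * d + 1) * (d * R) := by gcongr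
      _ ≤ 5 * d ^ 2 * R := by
          have : ((4 * d + 1) * d : ℝ) ≤ 5 * d ^ 2 := by nlinarith
          calc ((4 * d + 1) * (d * R) : ℝ) = ((4 * d + 1) * d) * R := by ring
            _ ≤ _ := by gcongr
  have hsum : 15 / 64 * (√(C * T) * ∑ i, √(#(nb i))) ≤ 9 * d ^ 2 * R := by
    rw [hsplit]
    calc 15 / 64 * (√(C * T) * (∑ i ∈ L, √(#(nb i)) + ∑ i ∈ H, √(#(nb i))))
        = 15 / 64 * (√(C * T) * ∑ i ∈ L, √(#(nb i))) +
          15 / 64 * (√(C * T) * ∑ i ∈ H, √(#(nb i))) := by ring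
      _ ≤ 5 * d ^ 2 * R + 4 * d ^ 2 * R := add_le_add hlow hhigh
      _ = _ := by ring
  have hd2 : (0 : ℝ) < d ^ 2 := by positivity
  rw [div_mul_eq_mul_div, one_mul, div_le_iff₀ (by positivity)]
  have hS0 : 0 ≤ √(C * T) * ∑ i, √(#(nb i) : ℝ) :=
    mul_nonneg hCT (sum_nonneg fun i _ => Real.sqrt_nonneg _)
  have h5 : 0 ≤ d ^ 2 * R := mul_nonneg hd2.le hR0
  linarith

theorem range_lower {nb : I → Finset J} {d : ℕ} (hreg : RightRegular nb d) [Nonempty J] :
    d * √(Fintype.card J) ≤ ∑ i, √(#(nb i)) := by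
  have hJr : (0 : ℝ) < Fintype.card J := by exact_mod_cast Fintype.card_pos
  have hsn : (0 : ℝ) < √(Fintype.card J) := Real.sqrt_pos.2 hJr
  have hsn2 : √(Fintype.card J : ℝ) * √(Fintype.card J) = Fintype.card J :=
    Real.mul_self_sqrt hJr.le
  have h1 : ∀ i, (#(nb i) : ℝ) / √(Fintype.card J) ≤ √(#(nb i)) := by
    intro i
    rw [div_le_iff₀ hsn]
    have h3 : (#(nb i) : ℝ) ≤ Fintype.card J := by exact_mod_cast card_le_univ (nb i)
    calc (#(nb i) : ℝ) = √(#(nb i)) * √(#(nb i)) :=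
          (Real.mul_self_sqrt (Nat.cast_nonneg _)).symm
      _ ≤ _ := by gcongr
  calc d * √(Fintype.card J) = (∑ i, (#(nb i) : ℝ)) / √(Fintype.card J) := by
        rw [sum_card hreg, eq_div_iff hsn.ne', mul_assoc, hsn2]
    _ = ∑ i, (#(nb i) : ℝ) / √(Fintype.card J) := sum_div _ _ _
    _ ≤ _ := sum_le_sum fun i _ => h1 i

theorem range_upper {nb : I → Finset J} {d : ℕ} (hreg : RightRegular nb d) :
    ∑ i, √(#(nb i)) ≤ d * Fintype.card J := by
  rw [← sum_card hreg]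
  refine sum_le_sum fun i _ => ?_
  rcases Nat.eq_zero_or_pos #(nb i) with h | h
  · simp [h]
  · have h1 : (1 : ℝ) ≤ #(nb i) := by exact_mod_cast h
    rw [Real.sqrt_le_left (by positivity)]
    nlinarith

omit [Fintype I] in
lemma complete_reg (d : ℕ) : RightRegular (fun _ : Fin d => (univ : Finset J)) d := by
  intro j
  simp

lemma stars_reg (d : ℕ) : RightRegular (fun p : J × Fin d => ({p.1} : Finset J)) d := by
  intro j
  have : (univ.filter fun p : J × Fin d => j ∈ ({p.1} : Finset J)) =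
      ({j} : Finset J) ×ˢ (univ : Finset (Fin d)) := by
    ext ⟨a, b⟩
    simp [eq_comm]
  rw [this, card_product]
  simp

end Q194.Cache
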