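import Mathlib

/-!
# Online caching of inelastic contents in bipartite networks: definitions

Users are the elements of a finite type `I`, caches the elements of a finite type `J`, files the
elements of `Fin N`. The bipartite graph is given by `nb : I → Finset J`; `nb i` is the set
`∂⁺(i)` of the caches adjacent to the user `i`.
-/

namespace Q194.Cache

open Finset

variable {I J : Type} [Fintype I] [Fintype J]

/-- The graph is right `d`-regular: every cache has exactly `d` adjacent users. -/
def RightRegular [DecidableEq J] (nb : I → Finset J) (d : ℕ) : Prop :=
  ∀ j : J, #{i : I | j ∈ nb i} = d

/-- The set of the configurations: every cache `j` stores the fraction `y j f ∈ [0,1]` of the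
file `f`, and the total amount stored in a cache is at most its capacity `C`. -/
def Config (J : Type) (N C : ℕ) : Set (J → Fin N → ℝ) :=
  {y | ∀ j, (∀ f, 0 ≤ y j f ∧ y j f ≤ 1) ∧ ∑ f, y j f ≤ C}

/-- The inelastic one-slot reward `q(x, y)` when user `i` requests the file `x i`: the sum over
the users of `min (1, amount of the requested file in the caches adjacent to the user)`. -/
noncomputable def reward (nb : I → Finset J) {N : ℕ} (x : I → Fin N) (y : J → Fin N → ℝ) : ℝ :=
  ∑ i, min 1 (∑ j ∈ nb i, y j (x i))

/-- An online policy over `T` slots: in the slot `t` it chooses a configuration as a function of
the requests of the slots before `t`. -/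
structure Policy (I J : Type) (N C T : ℕ) where
  /-- the configuration used in the slot `t` after the history `h` of requests -/
  act : (t : Fin T) → (h : Fin t → I → Fin N) → (J → Fin N → ℝ)
  /-- it is an admissible configuration -/
  mem : ∀ t h, act t h ∈ Config J N C

/-- The regret of a policy: the supremum over all request sequences `x` of the reward of the best
fixed configuration in hindsight minus the reward of the policy. (All the suprema here are suprema
of nonempty bounded sets of reals as soon as there is a request sequence.) -/
noncomputable def regret (nb : I → Finset J) {N C T : ℕ} (π : Policy I J N C T) : ℝ :=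
  ⨆ x : Fin T → I → Fin N,
    ((⨆ y : Config J N C, ∑ t, reward nb (x t) y.1) -
      ∑ t : Fin T, reward nb (x t) (π.act t (fun s => x ⟨s, s.2.trans t.2⟩)))

/-- The minimax regret `R*_T`: the infimum of the regret over all online policies. -/
noncomputable def minimaxRegret (nb : I → Finset J) (N C T : ℕ) : ℝ :=
  ⨅ π : Policy I J N C T, regret nb π

end Q194.Cache
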