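import Pool.Agent.Q194.Cache.Upper

/-!
# The lower bound: a general random adversary
-/

namespace Q194.Cache

open Finset

section Moments

variable {Ω : Type} [Fintype Ω]

lemma sum_cons {T : ℕ} (F : (Fin (T + 1) → Ω) → ℝ) :
    ∑ ω : Fin (T + 1) → Ω, F ω = ∑ ω : Fin T → Ω, ∑ a : Ω, F (Fin.cons a ω) := by
  rw [← (Fin.consEquiv (fun _ => Ω)).sum_comp, Fintype.sum_prod_type, sum_comm]
  rfl

lemma moment1 (ξ : Ω → ℝ) (h1 : ∑ a, ξ a = 0) (T : ℕ) :
    ∑ ω : Fin T → Ω, (∑ t, ξ (ω t)) = 0 := by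
  induction T with
  | zero => simp
  | succ T ih =>
    rw [sum_cons]
    simp only [Fin.sum_univ_succ, Fin.cons_zero, Fin.cons_succ, sum_add_distrib, h1, sum_const,
      zero_add, smul_zero, ← smul_sum, ih]

lemma moment2 (ξ : Ω → ℝ) (v : ℝ) (h1 : ∑ a, ξ a = 0)
    (h2 : ∑ a, ξ a ^ 2 = Fintype.card Ω * v) (T : ℕ) :
    ∑ ω : Fin T → Ω, (∑ t, ξ (ω t)) ^ 2 = (Fintype.card Ω : ℝ) ^ T * (T * v) := by
  induction T with
  | zero => simp
  | succ T ih =>
    rw [sum_cons]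
    have e : ∀ ω : Fin T → Ω, ∑ a : Ω, (∑ t, ξ (Fin.cons (α := fun _ => Ω) a ω t)) ^ 2 =
        Fintype.card Ω * v + Fintype.card Ω * (∑ t, ξ (ω t)) ^ 2 := by
      intro ω
      simp only [Fin.sum_univ_succ, Fin.cons_zero, Fin.cons_succ]
      have : ∀ a, (ξ a + ∑ t, ξ (ω t)) ^ 2 = ξ a ^ 2 + 2 * (∑ t, ξ (ω t)) * ξ a +
          (∑ t, ξ (ω t)) ^ 2 := fun a => by ring
      rw [sum_congr rfl fun a _ => this a, sum_add_distrib, sum_add_distrib, h2, ← mul_sum, h1,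
        sum_const, card_univ, nsmul_eq_mul]
      ring
    rw [sum_congr rfl fun ω _ => e ω, sum_add_distrib, sum_const, ← mul_sum, ih, card_univ,
      Fintype.card_fun, Fintype.card_fin, nsmul_eq_mul]
    push_cast
    ring

lemma moment4 (ξ : Ω → ℝ) (v : ℝ) (h1 : ∑ a, ξ a = 0) (h3 : ∀ a, ξ a ^ 3 = ξ a)
    (h2 : ∑ a, ξ a ^ 2 = Fintype.card Ω * v) (T : ℕ) :
    ∑ ω : Fin T → Ω, (∑ t, ξ (ω t)) ^ 4 =
      (Fintype.card Ω : ℝ) ^ T * (3 * T * (T - 1) * v ^ 2 + T * v) := by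
  induction T with
  | zero => simp
  | succ T ih =>
    rw [sum_cons]
    have e : ∀ ω : Fin T → Ω, ∑ a : Ω, (∑ t, ξ (Fin.cons (α := fun _ => Ω) a ω t)) ^ 4 =
        Fintype.card Ω * v + 6 * (Fintype.card Ω * v) * (∑ t, ξ (ω t)) ^ 2 +
        Fintype.card Ω * (∑ t, ξ (ω t)) ^ 4 := by
      intro ω
      simp only [Fin.sum_univ_succ, Fin.cons_zero, Fin.cons_succ]
      have : ∀ a, (ξ a + ∑ t, ξ (ω t)) ^ 4 = ξ a ^ 2 + 4 * (∑ t, ξ (ω t)) * ξ a +
          6 * (∑ t, ξ (ω t)) ^ 2 * ξ a ^ 2 + 4 * (∑ t, ξ (ω t)) ^ 3 * ξ a +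
          (∑ t, ξ (ω t)) ^ 4 := fun a => by
        have e4 : ξ a ^ 4 = ξ a ^ 2 := by
          calc ξ a ^ 4 = ξ a ^ 3 * ξ a := by ring
            _ = ξ a ^ 2 := by rw [h3]; ring
        linear_combination e4 + 4 * (∑ t, ξ (ω t)) * h3 a
      rw [sum_congr rfl fun a _ => this a, sum_add_distrib, sum_add_distrib, sum_add_distrib,
        sum_add_distrib, h2, ← mul_sum, ← mul_sum, ← mul_sum, h1, h2,
        sum_const, card_univ, nsmul_eq_mul]
      ring
    rw [sum_congr rfl fun ω _ => e ω, sum_add_distrib, sum_add_distrib, sum_const, ← mul_sum,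
      ← mul_sum, ih, moment2 ξ v h1 h2, card_univ, Fintype.card_fun, Fintype.card_fin,
      nsmul_eq_mul]
    push_cast
    ring

lemma abs_ge (x : ℝ) {q : ℝ} (hq : 0 < q) :
    5 / 2 * (x ^ 2 / q - x ^ 4 / q ^ 3) ≤ |x| := by
  set u := |x| / q with hu
  have hu0 : 0 ≤ u := by positivity
  have hx : |x| = u * q := by rw [hu]; field_simp
  have h2 : x ^ 2 = (u * q) ^ 2 := by rw [← hx, sq_abs]
  have h4 : x ^ 4 = (u * q) ^ 4 := by
    calc x ^ 4 = (x ^ 2) ^ 2 := by ring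
      _ = _ := by rw [h2]; ring
  have key : 0 ≤ u * (1 - 5 / 2 * u + 5 / 2 * u ^ 3) := by
    refine mul_nonneg hu0 ?_
    nlinarith [mul_nonneg (sq_nonneg (u - 7 / 12)) (by linarith : (0 : ℝ) ≤ u + 7 / 6)]
  rw [h2, h4, hx]
  have e : 5 / 2 * ((u * q) ^ 2 / q - (u * q) ^ 4 / q ^ 3) = q * (5 / 2 * (u ^ 2 - u ^ 4)) := by
    field_simp
  rw [e]
  nlinarith [mul_nonneg hq.le key]

lemma moment_abs (ξ : Ω → ℝ) (v : ℝ) (h1 : ∑ a, ξ a = 0) (h3 : ∀ a, ξ a ^ 3 = ξ a)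
    (h2 : ∑ a, ξ a ^ 2 = Fintype.card Ω * v) (T : ℕ) (hT : 1 ≤ T * v) :
    (Fintype.card Ω : ℝ) ^ T * (15 / 32 * √(T * v)) ≤ ∑ ω : Fin T → Ω, |∑ t, ξ (ω t)| := by
  set s := √(T * v) with hs
  have hs1 : 1 ≤ s := by rw [hs]; exact Real.one_le_sqrt.2 hT
  have hs2 : s ^ 2 = T * v := Real.sq_sqrt (by linarith)
  have hq : (0 : ℝ) < 4 * s := by linarith
  have hsum : ∑ ω : Fin T → Ω, 5 / 2 * ((∑ t, ξ (ω t)) ^ 2 / (4 * s) -
      (∑ t, ξ (ω t)) ^ 4 / (4 * s) ^ 3) ≤ ∑ ω : Fin T → Ω, |∑ t, ξ (ω t)| :=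
    sum_le_sum fun ω _ => abs_ge _ hq
  refine le_trans ?_ hsum
  rw [← mul_sum, sum_sub_distrib, ← sum_div, ← sum_div, moment2 ξ v h1 h2,
    moment4 ξ v h1 h3 h2]
  have hc : (0 : ℝ) ≤ (Fintype.card Ω : ℝ) ^ T := by positivity
  have hb : 3 * T * (T - 1) * v ^ 2 + T * v ≤ 4 * s ^ 4 := by
    have e : s ^ 4 = (T * v) ^ 2 := by rw [← hs2]; ring
    rw [e]
    have : (0 : ℝ) ≤ T * v ^ 2 := by positivity
    nlinarith
  have e1 : 15 / 32 * s = 5 / 2 * (s ^ 2 / (4 * s) - 4 * s ^ 4 / (4 * s) ^ 3) := by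
    field_simp
    norm_num
  have h5 : s ^ 2 / (4 * s) - 4 * s ^ 4 / (4 * s) ^ 3 ≤
      (T * v) / (4 * s) - (3 * T * (T - 1) * v ^ 2 + T * v) / (4 * s) ^ 3 := by
    rw [← hs2] at hb ⊢
    have : (3 * T * (T - 1) * v ^ 2 + s ^ 2) / (4 * s) ^ 3 ≤ 4 * s ^ 4 / (4 * s) ^ 3 := by
      gcongr
    linarith
  calc (Fintype.card Ω : ℝ) ^ T * (15 / 32 * s)
      = 5 / 2 * ((Fintype.card Ω : ℝ) ^ T * (s ^ 2 / (4 * s) - 4 * s ^ 4 / (4 * s) ^ 3)) := by
        rw [e1]; ring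
    _ ≤ 5 / 2 * ((Fintype.card Ω : ℝ) ^ T * ((T * v) / (4 * s) -
        (3 * T * (T - 1) * v ^ 2 + T * v) / (4 * s) ^ 3)) := by gcongr
    _ = _ := by ring

lemma sum_update {T : ℕ} (t : Fin T) (F : (Fin T → Ω) → ℝ) :
    ∑ ω : Fin T → Ω, ∑ a : Ω, F (Function.update ω t a) = Fintype.card Ω * ∑ ω, F ω := by
  have hinv : Function.Involutive
      (fun p : (Fin T → Ω) × Ω => (Function.update p.1 t p.2, p.1 t)) := by
    rintro ⟨ω, a⟩
    simp
  have h := Equiv.sum_comp hinv.toPerm (fun p : (Fin T → Ω) × Ω => F p.1)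
  rw [Fintype.sum_prod_type, Fintype.sum_prod_type] at h
  simp only [Function.Involutive.coe_toPerm, sum_const, card_univ, nsmul_eq_mul] at h
  rw [h, mul_sum]

end Moments

variable {I J : Type} [Fintype I] [Fintype J]

/-- **The general adversary.** -/
theorem adversary (nb : I → Finset J) {N C T : ℕ} {Ω : Type} [Fintype Ω] [Nonempty Ω]
    {P : Type} [Fintype P] (X : Ω → I → Fin N) (V : ℝ)
    (hV : ∀ y ∈ Config J N C, ∑ a, reward nb (X a) y ≤ Fintype.card Ω * V)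
    (B : Ω → ℝ) (hB : Fintype.card Ω * V ≤ ∑ a, B a)
    (w : P → ℝ) (hw : ∀ p, 0 ≤ w p) (ξ : P → Ω → ℝ) (h1 : ∀ p, ∑ a, ξ p a = 0)
    (h3 : ∀ p a, ξ p a ^ 3 = ξ p a)
    (v : P → ℝ) (h2 : ∀ p, ∑ a, ξ p a ^ 2 = Fintype.card Ω * v p)
    (ys : (P → Bool) → J → Fin N → ℝ) (hy : ∀ σ, ys σ ∈ Config J N C)
    (hgain : ∀ σ a, B a + ∑ p, (if σ p then w p * ξ p a else -(w p * ξ p a)) ≤
      reward nb (X a) (ys σ))
    (hT : ∀ p, 1 ≤ T * v p) :
    ∑ p, w p * (15 / 32 * √(T * v p)) ≤ minimaxRegret nb N C T := by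
  refine le_ciInf fun π => ?_
  set c : ℝ := (Fintype.card Ω : ℝ) with hc
  have hc0 : 0 < c := by rw [hc]; exact_mod_cast Fintype.card_pos
  have key : ∀ ω : Fin T → Ω, (∑ t, B (ω t)) + ∑ p, w p * |∑ t, ξ p (ω t)| -
      ∑ t : Fin T, reward nb (X (ω t)) (π.act t (fun s => X (ω ⟨s, s.2.trans t.2⟩))) ≤
      regret nb π := by
    intro ω
    refine le_trans ?_ (le_ciSup (bdd_seq nb π) (fun t => X (ω t)))
    refine sub_le_sub_right ?_ _
    set σ : P → Bool := fun p => decide (0 ≤ ∑ t, ξ p (ω t)) with hσ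
    refine le_trans ?_ (le_ciSup (bdd_best nb (C := C) (fun t => X (ω t))) ⟨ys σ, hy σ⟩)
    refine le_trans ?_ (sum_le_sum fun t _ => hgain σ (ω t))
    rw [sum_add_distrib, sum_comm]
    refine add_le_add le_rfl (sum_le_sum fun p _ => ?_)
    by_cases hp : 0 ≤ ∑ t, ξ p (ω t)
    · have : σ p = true := by simp [hσ, hp]
      simp only [this, if_true]
      rw [abs_of_nonneg hp, mul_sum]
    · have : σ p = false := by simp [hσ, hp]
      simp only [this]
      rw [abs_of_neg (not_le.1 hp)]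
      simp only [Bool.false_eq_true, if_false]
      rw [sum_neg_distrib, ← mul_sum]
      linarith
  have hsum := sum_le_sum fun (ω : Fin T → Ω) (_ : ω ∈ univ) => key ω
  rw [sum_const, card_univ, Fintype.card_fun, Fintype.card_fin, nsmul_eq_mul] at hsum
  simp only [sum_sub_distrib, sum_add_distrib] at hsum
  have hBsum : c ^ T * (T * V) ≤ ∑ ω : Fin T → Ω, ∑ t, B (ω t) := by
    rw [sum_comm]
    have : ∀ t : Fin T, c ^ T * V ≤ ∑ ω : Fin T → Ω, B (ω t) := by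
      intro t
      have e := sum_update t (fun ω : Fin T → Ω => B (ω t))
      simp only [Function.update_self, sum_const, card_univ, Fintype.card_fun, Fintype.card_fin,
        nsmul_eq_mul] at e
      push_cast at e
      rw [← hc] at e
      have h4 : c * (c ^ T * V) ≤ c * ∑ ω : Fin T → Ω, B (ω t) := by
        rw [← e]
        calc c * (c ^ T * V) = c ^ T * (c * V) := by ring
          _ ≤ c ^ T * ∑ a, B a := by gcongr
      exact le_of_mul_le_mul_left h4 hc0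
    calc c ^ T * (T * V) = ∑ _t : Fin T, c ^ T * V := by simp; ring
      _ ≤ _ := sum_le_sum fun t _ => this t
  have hRsum : ∑ ω : Fin T → Ω, ∑ t : Fin T, reward nb (X (ω t))
      (π.act t (fun s => X (ω ⟨s, s.2.trans t.2⟩))) ≤ c ^ T * (T * V) := by
    rw [sum_comm]
    have : ∀ t : Fin T, ∑ ω : Fin T → Ω, reward nb (X (ω t))
        (π.act t (fun s => X (ω ⟨s, s.2.trans t.2⟩))) ≤ c ^ T * V := by
      intro t
      have e := sum_update t (fun ω : Fin T → Ω => reward nb (X (ω t))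
        (π.act t (fun s => X (ω ⟨s, s.2.trans t.2⟩))))
      have e2 : ∀ (ω : Fin T → Ω) (a : Ω), reward nb (X (Function.update ω t a t))
          (π.act t (fun s => X (Function.update ω t a ⟨s, s.2.trans t.2⟩))) =
          reward nb (X a) (π.act t (fun s => X (ω ⟨s, s.2.trans t.2⟩))) := by
        intro ω a
        rw [Function.update_self]
        congr 2
        funext s
        rw [Function.update_of_ne]
        intro h
        have := congrArg Fin.val h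
        simp only at this
        exact absurd this (Nat.ne_of_lt s.2)
      simp only [e2] at e
      have h4 : c * ∑ ω : Fin T → Ω, reward nb (X (ω t))
          (π.act t (fun s => X (ω ⟨s, s.2.trans t.2⟩))) ≤ c * (c ^ T * V) := by
        rw [← e]
        calc ∑ ω : Fin T → Ω, ∑ a, reward nb (X a)
              (π.act t (fun s => X (ω ⟨s, s.2.trans t.2⟩)))
            ≤ ∑ _ω : Fin T → Ω, c * V := sum_le_sum fun ω _ => hV _ (π.mem t _)
          _ = c * (c ^ T * V) := by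
            rw [sum_const, card_univ, Fintype.card_fun, Fintype.card_fin, nsmul_eq_mul]
            push_cast
            ring
      exact le_of_mul_le_mul_left h4 hc0
    calc _ ≤ ∑ _t : Fin T, c ^ T * V := sum_le_sum fun t _ => this t
      _ = c ^ T * (T * V) := by simp; ring
  have hDsum : c ^ T * ∑ p, w p * (15 / 32 * √(T * v p)) ≤
      ∑ ω : Fin T → Ω, ∑ p, w p * |∑ t, ξ p (ω t)| := by
    rw [sum_comm, mul_sum]
    refine sum_le_sum fun p _ => ?_
    rw [← mul_sum]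
    have := moment_abs (ξ p) (v p) (h1 p) (h3 p) (h2 p) T (hT p)
    calc c ^ T * (w p * (15 / 32 * √(T * v p))) = w p * (c ^ T * (15 / 32 * √(T * v p))) := by
          ring
      _ ≤ _ := mul_le_mul_of_nonneg_left this (hw p)
  push_cast at hsum
  rw [← hc] at hsum
  have h9 : c ^ T * ∑ p, w p * (15 / 32 * √(T * v p)) ≤ c ^ T * regret nb π := by linarith
  exact le_of_mul_le_mul_left h9 (by positivity)

end Q194.Cache
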