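import Pool.Agent.Q194.Cache.Defs

/-!
# The upper bound: projected gradient ascent in the space of the user-wise hit vectors
-/

namespace Q194.Cache

open Finset

variable {I J : Type} [Fintype I] [Fintype J]

lemma zero_mem_config (N C : ℕ) : (0 : J → Fin N → ℝ) ∈ Config J N C := by
  intro j
  refine ⟨fun f => by simp, by simp⟩

instance (N C : ℕ) : Nonempty (Config J N C) := ⟨⟨0, zero_mem_config N C⟩⟩

instance (N C T : ℕ) : Nonempty (Policy I J N C T) :=
  ⟨{ act := fun _ _ => 0, mem := fun _ _ => zero_mem_config N C }⟩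

lemma reward_nonneg (nb : I → Finset J) {N C : ℕ} (x : I → Fin N) {y : J → Fin N → ℝ}
    (hy : y ∈ Config J N C) : 0 ≤ reward nb x y := by
  unfold reward
  refine sum_nonneg fun i _ => le_min zero_le_one (sum_nonneg fun j _ => ((hy j).1 _).1)

lemma reward_le_card (nb : I → Finset J) {N : ℕ} (x : I → Fin N) (y : J → Fin N → ℝ) :
    reward nb x y ≤ Fintype.card I := by
  unfold reward
  calc ∑ i, min 1 (∑ j ∈ nb i, y j (x i)) ≤ ∑ _i : I, (1 : ℝ) :=
        sum_le_sum fun i _ => min_le_left _ _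
    _ = Fintype.card I := by simp

lemma bdd_best (nb : I → Finset J) {N C T : ℕ} (x : Fin T → I → Fin N) :
    BddAbove (Set.range fun y : Config J N C => ∑ t, reward nb (x t) y.1) := by
  refine ⟨∑ _t : Fin T, (Fintype.card I : ℝ), ?_⟩
  rintro _ ⟨y, rfl⟩
  exact sum_le_sum fun t _ => reward_le_card nb _ _

lemma bdd_seq (nb : I → Finset J) {N C T : ℕ} (π : Policy I J N C T) :
    BddAbove (Set.range fun x : Fin T → I → Fin N =>
      ((⨆ y : Config J N C, ∑ t, reward nb (x t) y.1) -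
      ∑ t : Fin T, reward nb (x t) (π.act t (fun s => x ⟨s, s.2.trans t.2⟩)))) :=
  (Set.finite_range _).bddAbove

lemma bdd_regret (nb : I → Finset J) (N C T : ℕ) :
    BddBelow (Set.range fun π : Policy I J N C T => regret nb π) := by
  refine ⟨-∑ _t : Fin T, (Fintype.card I : ℝ), ?_⟩
  rintro _ ⟨π, rfl⟩
  by_cases hne : Nonempty (Fin T → I → Fin N)
  · obtain ⟨x⟩ := hne
    refine le_trans ?_ (le_ciSup (bdd_seq nb π) x)
    have h1 : (0 : ℝ) ≤ ⨆ y : Config J N C, ∑ t, reward nb (x t) y.1 := by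
      refine le_trans ?_ (le_ciSup (bdd_best nb x) ⟨0, zero_mem_config N C⟩)
      exact sum_nonneg fun t _ => reward_nonneg nb _ (zero_mem_config N C)
    have h2 : ∑ t : Fin T, reward nb (x t) (π.act t (fun s => x ⟨s, s.2.trans t.2⟩)) ≤
        ∑ _t : Fin T, (Fintype.card I : ℝ) := sum_le_sum fun t _ => reward_le_card nb _ _
    linarith
  · rw [not_nonempty_iff] at hne
    simp only [regret, Real.iSup_of_isEmpty, neg_nonpos]
    positivity

section OGD

variable (nb : I → Finset J)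

/-- the weights -/
noncomputable def wt (i : I) : ℝ := √(√(#(nb i)))

/-- the rescaled vector of the hits -/
noncomputable def vec {N : ℕ} (z : I → Fin N → ℝ) : EuclideanSpace ℝ (I × Fin N) :=
  WithLp.toLp 2 (fun p => (wt nb p.1)⁻¹ * z p.1 p.2)

/-- the gradient -/
noncomputable def grad {N : ℕ} (x : I → Fin N) : EuclideanSpace ℝ (I × Fin N) :=
  WithLp.toLp 2 (fun p => if x p.1 = p.2 then wt nb p.1 else 0)

/-- the feasible pairs -/
def Feas (N C : ℕ) : Set ((J → Fin N → ℝ) × (I → Fin N → ℝ)) :=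
  {p | p.1 ∈ Config J N C ∧ ∀ i f, 0 ≤ p.2 i f ∧ p.2 i f ≤ 1 ∧ p.2 i f ≤ ∑ j ∈ nb i, p.1 j f}

/-- the feasible hit vectors -/
def KK (N C : ℕ) : Set (EuclideanSpace ℝ (I × Fin N)) := (fun p => vec nb p.2) '' Feas nb N C

lemma wt_nonneg (i : I) : 0 ≤ wt nb i := Real.sqrt_nonneg _

lemma wt_sq (i : I) : wt nb i ^ 2 = √(#(nb i)) := by
  unfold wt; rw [Real.sq_sqrt (Real.sqrt_nonneg _)]

lemma wt_pos {i : I} (h : (nb i).Nonempty) : 0 < wt nb i := by
  unfold wt
  have : (0 : ℝ) < #(nb i) := by exact_mod_cast card_pos.2 h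
  positivity

lemma isCompact_feas (N C : ℕ) : IsCompact (Feas nb N C) := by
  have h0 : IsCompact (Set.Icc (0 : (J → Fin N → ℝ) × (I → Fin N → ℝ)) 1) := isCompact_Icc
  refine h0.of_isClosed_subset ?_ ?_
  · have e : Feas nb N C =
        (⋂ j, ((⋂ f, {p | 0 ≤ p.1 j f} ∩ {p | p.1 j f ≤ 1}) ∩ {p | ∑ f, p.1 j f ≤ (C : ℝ)})) ∩
        (⋂ i, ⋂ f, {p | 0 ≤ p.2 i f} ∩ ({p | p.2 i f ≤ 1} ∩
          {p | p.2 i f ≤ ∑ j ∈ nb i, p.1 j f})) := by
      ext p
      simp only [Feas, Config, Set.mem_ofPred_eq, Set.mem_inter_iff, Set.mem_iInter]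
    rw [e]
    refine IsClosed.inter (isClosed_iInter fun j => IsClosed.inter (isClosed_iInter fun f =>
      IsClosed.inter ?_ ?_) ?_) (isClosed_iInter fun i => isClosed_iInter fun f =>
      IsClosed.inter ?_ (IsClosed.inter ?_ ?_))
    all_goals
      refine isClosed_le ?_ ?_ <;> fun_prop
  · rintro ⟨y, z⟩ ⟨hy, hz⟩
    rw [Set.mem_Icc]
    exact ⟨⟨fun j f => ((hy j).1 f).1, fun i f => (hz i f).1⟩,
      ⟨fun j f => ((hy j).1 f).2, fun i f => (hz i f).2.1⟩⟩

lemma continuous_vec (N : ℕ) :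
    Continuous (fun p : (J → Fin N → ℝ) × (I → Fin N → ℝ) => vec nb p.2) := by
  unfold vec
  refine (PiLp.continuous_toLp 2 _).comp ?_
  fun_prop

lemma isCompact_KK (N C : ℕ) : IsCompact (KK nb N C) :=
  (isCompact_feas nb N C).image (continuous_vec nb N)

lemma convex_feas (N C : ℕ) : Convex ℝ (Feas nb N C) := by
  rintro ⟨y, z⟩ ⟨hy, hz⟩ ⟨y', z'⟩ ⟨hy', hz'⟩ s t hs ht hst
  simp only at hy hz hy' hz'
  refine ⟨fun j => ⟨fun f => ?_, ?_⟩, fun i f => ⟨?_, ?_, ?_⟩⟩
  · have h1 := (hy j).1 f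
    have h2 := (hy' j).1 f
    simp only [Prod.fst_add, Prod.smul_fst, Pi.add_apply, Pi.smul_apply, smul_eq_mul]
    constructor
    · have := mul_nonneg hs h1.1
      have := mul_nonneg ht h2.1
      linarith
    · have := mul_le_mul_of_nonneg_left h1.2 hs
      have := mul_le_mul_of_nonneg_left h2.2 ht
      linarith
  · simp only [Prod.fst_add, Prod.smul_fst, Pi.add_apply, Pi.smul_apply, smul_eq_mul]
    rw [sum_add_distrib, ← mul_sum, ← mul_sum]
    have := mul_le_mul_of_nonneg_left (hy j).2 hs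
    have := mul_le_mul_of_nonneg_left (hy' j).2 ht
    calc s * ∑ i, y j i + t * ∑ i, y' j i ≤ s * C + t * C := by linarith
      _ = C := by rw [← add_mul, hst, one_mul]
  · simp only [Prod.snd_add, Prod.smul_snd, Pi.add_apply, Pi.smul_apply, smul_eq_mul]
    have := mul_nonneg hs (hz i f).1
    have := mul_nonneg ht (hz' i f).1
    linarith
  · simp only [Prod.snd_add, Prod.smul_snd, Pi.add_apply, Pi.smul_apply, smul_eq_mul]
    have := mul_le_mul_of_nonneg_left (hz i f).2.1 hs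
    have := mul_le_mul_of_nonneg_left (hz' i f).2.1 ht
    linarith
  · simp only [Prod.snd_add, Prod.smul_snd, Prod.fst_add, Prod.smul_fst, Pi.add_apply,
      Pi.smul_apply, smul_eq_mul]
    rw [sum_add_distrib, ← mul_sum, ← mul_sum]
    have := mul_le_mul_of_nonneg_left (hz i f).2.2 hs
    have := mul_le_mul_of_nonneg_left (hz' i f).2.2 ht
    linarith

lemma convex_KK (N C : ℕ) : Convex ℝ (KK nb N C) := by
  rintro _ ⟨p, hp, rfl⟩ _ ⟨q, hq, rfl⟩ s t hs ht hst
  refine ⟨s • p + t • q, convex_feas nb N C hp hq hs ht hst, ?_⟩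
  ext r
  simp only [vec, Prod.snd_add, Prod.smul_snd, Pi.add_apply, Pi.smul_apply, smul_eq_mul,
    PiLp.add_apply, PiLp.smul_apply]
  ring

lemma zero_mem_KK (N C : ℕ) : (0 : EuclideanSpace ℝ (I × Fin N)) ∈ KK nb N C := by
  refine ⟨0, ⟨zero_mem_config N C, fun i f => ?_⟩, ?_⟩
  · simp
  · ext r
    simp [vec]

lemma exists_proj (N C : ℕ) (v : EuclideanSpace ℝ (I × Fin N)) :
    ∃ p ∈ KK nb N C, ∀ w ∈ KK nb N C, ‖p - w‖ ≤ ‖v - w‖ := by
  obtain ⟨p, hp, hmin⟩ := exists_norm_eq_iInf_of_complete_convex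
    (K := KK nb N C) ⟨0, zero_mem_KK nb N C⟩ (isCompact_KK nb N C).isComplete (convex_KK nb N C) v
  refine ⟨p, hp, fun w hw => ?_⟩
  have h := (norm_eq_iInf_iff_real_inner_le_zero (convex_KK nb N C) hp).1 hmin w hw
  have e : ‖v - w‖ ^ 2 = ‖v - p‖ ^ 2 - 2 * inner ℝ (v - p) (w - p) + ‖p - w‖ ^ 2 := by
    have : v - w = (v - p) - (w - p) := by abel
    rw [this, norm_sub_sq_real, norm_sub_rev w p]
  have h3 : ‖p - w‖ ^ 2 ≤ ‖v - w‖ ^ 2 := by
    have := sq_nonneg ‖v - p‖
    linarith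
  exact le_of_sq_le_sq h3 (norm_nonneg _)

/-- the projection -/
noncomputable def proj (N C : ℕ) (v : EuclideanSpace ℝ (I × Fin N)) :
    EuclideanSpace ℝ (I × Fin N) := (exists_proj nb N C v).choose

lemma proj_mem (N C : ℕ) (v : EuclideanSpace ℝ (I × Fin N)) : proj nb N C v ∈ KK nb N C :=
  (exists_proj nb N C v).choose_spec.1

lemma proj_le (N C : ℕ) (v w : EuclideanSpace ℝ (I × Fin N)) (hw : w ∈ KK nb N C) :
    ‖proj nb N C v - w‖ ≤ ‖v - w‖ :=
  (exists_proj nb N C v).choose_spec.2 w hw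

/-- the iterates of projected gradient ascent -/
noncomputable def iter (N C : ℕ) (η : ℝ) : (t : ℕ) → (Fin t → I → Fin N) →
    EuclideanSpace ℝ (I × Fin N)
  | 0, _ => 0
  | t + 1, h => proj nb N C (iter N C η t (Fin.init h) + η • grad nb (h (Fin.last t)))

lemma iter_mem (N C : ℕ) (η : ℝ) (t : ℕ) (h : Fin t → I → Fin N) :
    iter nb N C η t h ∈ KK nb N C := by
  cases t with
  | zero => exact zero_mem_KK nb N C
  | succ t => exact proj_mem nb N C _

/-- the policy -/
noncomputable def gradPolicy (N C T : ℕ) (η : ℝ) : Policy I J N C T where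
  act := fun t h => (iter_mem nb N C η t h).choose.1
  mem := fun t h => (iter_mem nb N C η t h).choose_spec.1.1

lemma inner_grad_vec {N : ℕ} (x : I → Fin N) (z : I → Fin N → ℝ)
    (hz : ∀ i f, nb i = ∅ → z i f = 0) :
    inner ℝ (grad nb x) (vec nb z) = ∑ i, z i (x i) := by
  rw [PiLp.inner_apply, Fintype.sum_prod_type]
  refine sum_congr rfl fun i _ => ?_
  simp only [grad, vec, RCLike.inner_apply, conj_trivial]
  rw [Fintype.sum_eq_single (x i)]
  · simp only [if_true]
    rcases (nb i).eq_empty_or_nonempty with h | h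
    · rw [hz i _ h]; simp
    · have := wt_pos nb h
      field_simp
  · intro f hf
    simp [Ne.symm hf]

lemma norm_grad_sq {N : ℕ} (x : I → Fin N) :
    ‖grad nb x‖ ^ 2 = ∑ i, √(#(nb i)) := by
  rw [EuclideanSpace.norm_sq_eq, Fintype.sum_prod_type]
  refine sum_congr rfl fun i _ => ?_
  rw [Fintype.sum_eq_single (x i)]
  · simp only [grad, if_true, Real.norm_eq_abs, sq_abs]
    exact wt_sq nb i
  · intro f hf
    simp [grad, Ne.symm hf]

lemma feas_empty {N C : ℕ} {p : (J → Fin N → ℝ) × (I → Fin N → ℝ)} (hp : p ∈ Feas nb N C)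
    (i : I) (f : Fin N) (h : nb i = ∅) : p.2 i f = 0 := by
  have := hp.2 i f
  rw [h, sum_empty] at this
  linarith

lemma norm_vec_sq_le {N C : ℕ} {p : (J → Fin N → ℝ) × (I → Fin N → ℝ)}
    (hp : p ∈ Feas nb N C) : ‖vec nb p.2‖ ^ 2 ≤ C * ∑ i, √(#(nb i)) := by
  rw [EuclideanSpace.norm_sq_eq, Fintype.sum_prod_type, mul_sum]
  refine sum_le_sum fun i _ => ?_
  rcases (nb i).eq_empty_or_nonempty with h | h
  · have : ∀ f, p.2 i f = 0 := fun f => feas_empty nb hp i f h
    simp [vec, this, h]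
  have hw := wt_pos nb h
  have h1 : ∑ f, ‖(vec nb p.2) (i, f)‖ ^ 2 = (wt nb i ^ 2)⁻¹ * ∑ f, (p.2 i f) ^ 2 := by
    rw [mul_sum]
    refine sum_congr rfl fun f _ => ?_
    simp only [vec, Real.norm_eq_abs, sq_abs]
    rw [mul_pow, inv_pow]
  have h2 : ∑ f, (p.2 i f) ^ 2 ≤ #(nb i) * C := by
    calc ∑ f, (p.2 i f) ^ 2 ≤ ∑ f, ∑ j ∈ nb i, p.1 j f := by
          refine sum_le_sum fun f _ => ?_
          have := hp.2 i f
          nlinarith
      _ = ∑ j ∈ nb i, ∑ f, p.1 j f := sum_comm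
      _ ≤ ∑ _j ∈ nb i, (C : ℝ) := sum_le_sum fun j _ => (hp.1 j).2
      _ = #(nb i) * C := by simp
  rw [h1, wt_sq]
  have hs : (0 : ℝ) < √(#(nb i)) := by rw [← wt_sq]; positivity
  have h3 : √(#(nb i)) * √(#(nb i)) = (#(nb i) : ℝ) := Real.mul_self_sqrt (Nat.cast_nonneg _)
  generalize √(#(nb i) : ℝ) = r at h3 hs
  generalize ∑ f, (p.2 i f) ^ 2 = Z at h2
  rw [← h3] at h2
  calc r⁻¹ * Z ≤ r⁻¹ * (r * r * C) := by gcongr
    _ = (r⁻¹ * r) * (C * r) := by ring
    _ = C * r := by rw [inv_mul_cancel₀ hs.ne', one_mul]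

lemma ogd {N C : ℕ} {η : ℝ} (w : EuclideanSpace ℝ (I × Fin N)) (hw : w ∈ KK nb N C)
    (t : ℕ) (h : Fin t → I → Fin N) :
    ‖iter nb N C η t h - w‖ ^ 2 + 2 * η * ∑ s : Fin t, inner ℝ (grad nb (h s))
      (w - iter nb N C η s (fun r => h ⟨r, r.2.trans s.2⟩)) ≤
      ‖w‖ ^ 2 + t * (η ^ 2 * ∑ i, √(#(nb i))) := by
  induction t with
  | zero => simp [iter]
  | succ t ih =>
    rw [Fin.sum_univ_castSucc]
    have key := ih (Fin.init h)
    have h1 := proj_le nb N C (iter nb N C η t (Fin.init h) + η • grad nb (h (Fin.last t))) w hw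
    have h2 : ‖iter nb N C η t (Fin.init h) + η • grad nb (h (Fin.last t)) - w‖ ^ 2 =
        ‖iter nb N C η t (Fin.init h) - w‖ ^ 2 -
        2 * η * inner ℝ (grad nb (h (Fin.last t))) (w - iter nb N C η t (Fin.init h)) +
        η ^ 2 * ∑ i, √(#(nb i)) := by
      have e : iter nb N C η t (Fin.init h) + η • grad nb (h (Fin.last t)) - w =
          (iter nb N C η t (Fin.init h) - w) + η • grad nb (h (Fin.last t)) := by abel
      rw [e, norm_add_sq_real, norm_smul, mul_pow, norm_grad_sq, Real.norm_eq_abs, sq_abs,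
        inner_smul_right, real_inner_comm, ← neg_sub w, inner_neg_right]
      ring
    have h3 : ‖iter nb N C η (t + 1) h - w‖ ^ 2 ≤
        ‖iter nb N C η t (Fin.init h) + η • grad nb (h (Fin.last t)) - w‖ ^ 2 := by
      have := norm_nonneg (iter nb N C η (t + 1) h - w)
      exact pow_le_pow_left₀ this h1 2
    rw [h2] at h3
    have e2 : ∑ s : Fin t, inner ℝ (grad nb (h s.castSucc))
        (w - iter nb N C η (s.castSucc : Fin (t+1)) (fun r => h ⟨r, r.2.trans s.castSucc.2⟩)) =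
        ∑ s : Fin t, inner ℝ (grad nb (Fin.init h s))
        (w - iter nb N C η s (fun r => Fin.init h ⟨r, r.2.trans s.2⟩)) := rfl
    have e3 : inner ℝ (grad nb (h (Fin.last t)))
        (w - iter nb N C η (Fin.last t) (fun r => h ⟨r, r.2.trans (Fin.last t).2⟩)) =
        inner ℝ (grad nb (h (Fin.last t))) (w - iter nb N C η t (Fin.init h)) := rfl
    rw [e2, e3]
    push_cast
    linarith

lemma gradPolicy_reward {N C T : ℕ} (η : ℝ) (x : I → Fin N) (t : Fin T)
    (h : Fin t → I → Fin N) :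
    inner ℝ (grad nb x) (iter nb N C η t h) ≤
      reward nb x ((gradPolicy nb N C T η).act t h) := by
  have hs := (iter_mem nb N C η t h).choose_spec
  set p := (iter_mem nb N C η t h).choose with hp
  have e : iter nb N C η t h = vec nb p.2 := hs.2.symm
  rw [e, inner_grad_vec nb x p.2 (fun i f hi => feas_empty nb hs.1 i f hi)]
  have e2 : (gradPolicy nb N C T η).act t h = p.1 := rfl
  rw [e2]
  unfold reward
  refine sum_le_sum fun i _ => ?_
  have := hs.1.2 i (x i)
  exact le_min this.2.1 this.2.2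

/-- **The upper bound.** -/
theorem upper (N C T : ℕ) :
    minimaxRegret nb N C T ≤ √(C * T) * ∑ i, √(#(nb i)) := by
  set S : ℝ := ∑ i, √(#(nb i)) with hS
  have hS0 : 0 ≤ S := sum_nonneg fun i _ => Real.sqrt_nonneg _
  set η : ℝ := √(C / T) with hη
  refine (ciInf_le (bdd_regret nb N C T) (gradPolicy nb N C T η)).trans ?_
  have hb : (0 : ℝ) ≤ √(C * T) * S := mul_nonneg (Real.sqrt_nonneg _) hS0
  refine Real.iSup_le (fun x => ?_) hb
  rw [sub_le_iff_le_add]
  refine ciSup_le fun y => ?_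
  rcases Nat.eq_zero_or_pos T with hT | hT
  · subst hT
    rw [Fin.sum_univ_zero, Fin.sum_univ_zero]
    linarith
  rcases Nat.eq_zero_or_pos C with hC | hC
  · -- capacity zero
    have hz : ∀ t : Fin T, reward nb (x t) y.1 = 0 := by
      intro t
      unfold reward
      refine sum_eq_zero fun i _ => ?_
      have : ∑ j ∈ nb i, y.1 j (x t i) = 0 := by
        refine sum_eq_zero fun j _ => ?_
        have h0 : (C : ℝ) = 0 := by rw [hC, Nat.cast_zero]
        have h1 : ∑ f, y.1 j f ≤ 0 := h0 ▸ (y.2 j).2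
        have h2 : y.1 j (x t i) ≤ ∑ f, y.1 j f :=
          single_le_sum (f := fun f => y.1 j f) (fun f _ => ((y.2 j).1 f).1) (mem_univ _)
        have h3 := ((y.2 j).1 (x t i)).1
        linarith
      rw [this]
      simp
    rw [sum_eq_zero fun t _ => hz t]
    have : 0 ≤ ∑ t : Fin T, reward nb (x t) ((gradPolicy nb N C T η).act t
        (fun s => x ⟨s, s.2.trans t.2⟩)) :=
      sum_nonneg fun t _ => reward_nonneg nb _ ((gradPolicy nb N C T η).mem t _)
    linarith
  -- the comparator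
  set z : I → Fin N → ℝ := fun i f => min 1 (∑ j ∈ nb i, y.1 j f) with hz
  have hF : ((y.1, z) : (J → Fin N → ℝ) × (I → Fin N → ℝ)) ∈ Feas nb N C := by
    refine ⟨y.2, fun i f => ⟨?_, min_le_left _ _, min_le_right _ _⟩⟩
    exact le_min zero_le_one (sum_nonneg fun j _ => ((y.2 j).1 f).1)
  have hw : vec nb z ∈ KK nb N C := ⟨(y.1, z), hF, rfl⟩
  have hmain := ogd nb (η := η) (vec nb z) hw T x
  have hnorm := norm_vec_sq_le nb hF
  have hηpos : 0 < η := by
    have : (0 : ℝ) < C := by exact_mod_cast hC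
    have : (0 : ℝ) < T := by exact_mod_cast hT
    positivity
  have h1 : ∑ t, reward nb (x t) y.1 - ∑ t : Fin T, reward nb (x t)
      ((gradPolicy nb N C T η).act t (fun s => x ⟨s, s.2.trans t.2⟩)) ≤
      ∑ s : Fin T, inner ℝ (grad nb (x s))
      (vec nb z - iter nb N C η s (fun r => x ⟨r, r.2.trans s.2⟩)) := by
    rw [← sum_sub_distrib]
    refine sum_le_sum fun t _ => ?_
    rw [inner_sub_right, inner_grad_vec nb (x t) z (fun i f hi => feas_empty nb hF i f hi)]
    have h2 := gradPolicy_reward nb (C := C) η (x t) t (fun s => x ⟨s, s.2.trans t.2⟩)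
    have h3 : reward nb (x t) y.1 = ∑ i, z i (x t i) := rfl
    linarith
  have h2 : 2 * η * ∑ s : Fin T, inner ℝ (grad nb (x s))
      (vec nb z - iter nb N C η s (fun r => x ⟨r, r.2.trans s.2⟩)) ≤
      C * S + T * (η ^ 2 * S) := by
    have := sq_nonneg ‖iter nb N C η T x - vec nb z‖
    simp only at hnorm
    linarith
  have hη2 : η ^ 2 = C / T := Real.sq_sqrt (by positivity)
  have hTr : (0 : ℝ) < T := by exact_mod_cast hT
  have h4 : C * S + T * (η ^ 2 * S) = 2 * η * (√(C * T) * S) := by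
    have h5 : η * √(C * T) = C := by
      rw [hη, ← Real.sqrt_mul (by positivity)]
      have : (C : ℝ) / T * (C * T) = C ^ 2 := by field_simp
      rw [this, Real.sqrt_sq (by positivity)]
    calc C * S + T * (η ^ 2 * S) = C * S + T * (C / T * S) := by rw [hη2]
      _ = 2 * C * S := by field_simp; ring
      _ = 2 * (η * √(C * T)) * S := by rw [h5]
      _ = _ := by ring
  rw [h4] at h2
  have h6 := le_of_mul_le_mul_left h2 (by positivity : (0 : ℝ) < 2 * η)
  linarith

end OGD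

end Q194.Cache
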